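import Pool.Agent.R988.NQ.Mom2
import Pool.Agent.H5R2.NBA.AB

/-! # The averaged velocity vanishes on the eigenvectors -/

set_option autoImplicit false

open MeasureTheory Filter Topology
open scoped BigOperators ENNReal NNReal InnerProductSpace ComplexConjugate

namespace Pool.Agent.K7.H96.NBT

open Pool.Agent.H5R2.NB Pool.Agent.H5R2.NB.MOM Pool.Agent.R988.NQ

theorem pow_eig {X : Type} [NormedAddCommGroup X] [InnerProductSpace ℂ X] (W : UG X) {φ : X}
    {z : ℂ} (h : W.U 1 φ = z • φ) (n : ℕ) : W.U (n : ℝ) φ = z ^ n • φ := by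
  induction n with
  | zero => simpa using W.zero' φ
  | succ n ih =>
    push_cast
    rw [W.add', h, map_smul, ih, smul_smul, pow_succ]
    congr 1
    ring

variable {d : ℕ}

/-- for two vectors with the same eigenvalue of `U 1` -/
theorem eig_orth {c : ℝ} {V : Site d → ℝ} {W : UG (L2 (Site d))} (hW : IsGrp c V W) {j : Fin d}
    {v : L2 (Site d) →L[ℂ] L2 (Site d)} (hv : IsVel c j v) {φ ψ : L2 (Site d)} {z : ℂ}
    (hz : ‖z‖ = 1) (hφ : W.U 1 φ = z • φ) (hψ : W.U 1 ψ = z • ψ) (N : ℕ) :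
    ⟪ψ, avP W v N φ⟫_ℂ = 0 := by
  obtain ⟨Sp, hp⟩ := (t_OPS d).1 (Pi.single j 1)
  obtain ⟨Sm, hm⟩ := (t_OPS d).1 (-Pi.single j 1)
  have hcw : Continuous fun s => W.U s φ := W.cont' _
  have key : ∀ R : ℕ, ⟪ψ, ∫ s in (0 : ℝ)..(N : ℝ), W.U (-s) (vR c j R Sp Sm (W.U s φ))⟫_ℂ = 0 := by
    intro R
    have hch : Continuous fun s => vR c j R Sp Sm (W.U s φ) :=
      (vR c j R Sp Sm).continuous.comp hcw
    have hU := ALL.a_UN d c V W hW _ _ hch (isSol2 c V W hW j R Sp Sm hp hm φ) (N : ℝ)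
    have e1 : ∫ s in (0 : ℝ)..(N : ℝ), W.U ((N : ℝ) - s) (vR c j R Sp Sm (W.U s φ)) =
        W.U (N : ℝ) (∫ s in (0 : ℝ)..(N : ℝ), W.U (-s) (vR c j R Sp Sm (W.U s φ))) := by
      rw [← ContinuousLinearMap.intervalIntegral_comp_comm _
        ((cont_comp W _ hch).intervalIntegrable 0 (N : ℝ))]
      refine intervalIntegral.integral_congr fun s _ => ?_
      show W.U ((N : ℝ) - s) _ = W.U (N : ℝ) (W.U (-s) _)
      rw [← W.add', sub_eq_add_neg]
    rw [e1, W.zero'] at hU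
    have h1 : ⟪W.U (N : ℝ) ψ, mulop (xi j R) R (xi_abs j R) (W.U (N : ℝ) φ)⟫_ℂ =
        ⟪ψ, mulop (xi j R) R (xi_abs j R) φ⟫_ℂ := by
      rw [pow_eig W hφ, pow_eig W hψ, map_smul, inner_smul_left, inner_smul_right, map_pow,
        ← mul_assoc, ← mul_pow, ← Complex.normSq_eq_conj_mul_self, Complex.normSq_eq_norm_sq, hz]
      simp
    have h2 : ⟪W.U (N : ℝ) ψ, mulop (xi j R) R (xi_abs j R) (W.U (N : ℝ) φ)⟫_ℂ =
        ⟪ψ, mulop (xi j R) R (xi_abs j R) φ⟫_ℂ +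
        ⟪ψ, ∫ s in (0 : ℝ)..(N : ℝ), W.U (-s) (vR c j R Sp Sm (W.U s φ))⟫_ℂ := by
      rw [hU, inner_add_right, ANTI.inner_pres, ANTI.inner_pres]
    rw [h1] at h2
    exact (left_eq_add.1 h2)
  have hR : Tendsto (fun R : ℕ => ⟪ψ, ∫ s in (0 : ℝ)..(N : ℝ),
      W.U (-s) (vR c j R Sp Sm (W.U s φ))⟫_ℂ) atTop
      (𝓝 ⟪ψ, ∫ s in (0 : ℝ)..(N : ℝ), W.U (-s) (v (W.U s φ))⟫_ℂ) := by
    have h1 : Tendsto (fun R : ℕ => ∫ s in (0 : ℝ)..(N : ℝ),
        W.U (-s) (vR c j R Sp Sm (W.U s φ))) atTop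
        (𝓝 (∫ s in (0 : ℝ)..(N : ℝ), W.U (-s) (v (W.U s φ)))) := by
      refine intervalIntegral.tendsto_integral_filter_of_dominated_convergence
        (bound := fun _ => |c| * (‖Sp‖ + ‖Sm‖) * ‖φ‖) ?_ ?_ ?_ ?_
      · refine Eventually.of_forall fun R => ?_
        exact (cont_comp W _ ((vR c j R Sp Sm).continuous.comp hcw)).aestronglyMeasurable
      · refine Eventually.of_forall fun R => ae_of_all _ fun s _ => ?_
        rw [W.norm']
        have := vR_norm_le c j R Sp Sm (W.U s φ)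
        rwa [W.norm'] at this
      · exact intervalIntegrable_const
      · refine ae_of_all _ fun s _ => ?_
        exact ((W.U (-s)).continuous.tendsto _).comp (vR_tendsto c j Sp Sm v hp hm hv _)
    exact (Continuous.tendsto (by fun_prop : Continuous fun y : L2 (Site d) => ⟪ψ, y⟫_ℂ) _).comp h1
  simp only [key] at hR
  have h0 := tendsto_nhds_unique hR tendsto_const_nhds
  unfold avP
  rw [inner_smul_right]
  exact mul_eq_zero_of_right _ h0

/-- the limit of the averaged velocity vanishes on the eigenvectors of `U 1` -/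
theorem eig_zero {c : ℝ} {V : Site d → ℝ} {W : UG (L2 (Site d))} (hW : IsGrp c V W) {j : Fin d}
    {v : L2 (Site d) →L[ℂ] L2 (Site d)} (hv : IsVel c j v) {Nk : ℕ → ℕ}
    (hNk : Tendsto Nk atTop atTop) {B : L2 (Site d) →L[ℂ] L2 (Site d)} (hB : Good W v Nk B)
    {φ : L2 (Site d)} {z : ℂ} (hφ : W.U 1 φ = z • φ) : B φ = 0 := by
  by_cases h0 : φ = 0
  · rw [h0, map_zero]
  have hz : ‖z‖ = 1 := by
    have h1 := W.norm' 1 φ
    rw [hφ, norm_smul] at h1
    have h2 : 0 < ‖φ‖ := norm_pos_iff.2 h0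
    exact mul_right_cancel₀ h2.ne' (by rw [h1, one_mul])
  have hc := (t_BP (Site d) W v Nk hNk B hB).2 1 φ
  have hψ : W.U 1 (B φ) = z • B φ := by
    rw [← hc, hφ, map_smul]
  have h1 : Tendsto (fun k => ⟪B φ, avP W v (Nk k) φ⟫_ℂ) atTop (𝓝 ⟪B φ, B φ⟫_ℂ) :=
    (Continuous.tendsto (by fun_prop : Continuous fun y : L2 (Site d) => ⟪B φ, y⟫_ℂ) _).comp
      (hB φ).1
  simp only [eig_orth hW hv hz hφ hψ] at h1
  have h2 := tendsto_nhds_unique h1 tendsto_const_nhds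
  exact inner_self_eq_zero.1 h2

end Pool.Agent.K7.H96.NBT
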