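import Mathlib

/-! # Mixtures of iid fields -/

set_option autoImplicit false

open MeasureTheory Filter Topology ProbabilityTheory
open scoped BigOperators ENNReal NNReal

namespace Pool.Agent.K7.H96.NBT

variable {ι X Y Z : Type} [MeasurableSpace X] [MeasurableSpace Y] [MeasurableSpace Z]

/-- pairs of iid fields -/
theorem unzip_law (a : Measure X) (b : Measure Y) [IsProbabilityMeasure a]
    [IsProbabilityMeasure b] :
    (Measure.infinitePi fun _ : ι => a.prod b).map (fun w => (fun x => (w x).1, fun x => (w x).2)) =
      (Measure.infinitePi fun _ : ι => a).prod (Measure.infinitePi fun _ : ι => b) := by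
  classical
  symm
  have hu : Measurable (fun w : ι → X × Y => ((fun x => (w x).1, fun x => (w x).2) :
      (ι → X) × (ι → Y))) := by fun_prop
  have hpi1 : IsPiSystem (squareCylinders fun _ : ι => {s : Set X | MeasurableSet s}) :=
    isPiSystem_squareCylinders (fun _ => MeasurableSpace.isPiSystem_measurableSet)
      (fun _ => MeasurableSet.univ)
  have hpi2 : IsPiSystem (squareCylinders fun _ : ι => {s : Set Y | MeasurableSet s}) :=
    isPiSystem_squareCylinders (fun _ => MeasurableSpace.isPiSystem_measurableSet)
      (fun _ => MeasurableSet.univ)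
  refine Measure.prod_eq_generateFrom
    (C := squareCylinders fun _ : ι => {s : Set X | MeasurableSet s})
    (D := squareCylinders fun _ : ι => {s : Set Y | MeasurableSet s})
    generateFrom_squareCylinders generateFrom_squareCylinders hpi1 hpi2 ?_ ?_ ?_
  · exact ⟨fun _ => Set.univ, fun _ => ⟨∅, fun _ => Set.univ, by simp, by simp⟩, fun _ => by simp,
      Set.iUnion_const _⟩
  · exact ⟨fun _ => Set.univ, fun _ => ⟨∅, fun _ => Set.univ, by simp, by simp⟩, fun _ => by simp,
      Set.iUnion_const _⟩
  · rintro _ ⟨s, A, hA, rfl⟩ _ ⟨t, B, hB, rfl⟩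
    have hA' : ∀ i, MeasurableSet (A i) := fun i => hA i (Set.mem_univ _)
    have hB' : ∀ i, MeasurableSet (B i) := fun i => hB i (Set.mem_univ _)
    have hms : MeasurableSet ((s : Set ι).pi A) := MeasurableSet.pi s.countable_toSet fun i _ => hA' i
    have hmt : MeasurableSet ((t : Set ι).pi B) := MeasurableSet.pi t.countable_toSet fun i _ => hB' i
    rw [Measure.map_apply hu (hms.prod hmt)]
    have e : (fun w : ι → X × Y => ((fun x => (w x).1, fun x => (w x).2) :
        (ι → X) × (ι → Y))) ⁻¹' ((s : Set ι).pi A ×ˢ (t : Set ι).pi B) =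
        ((s ∪ t : Finset ι) : Set ι).pi fun i => (if i ∈ s then A i else Set.univ) ×ˢ
          (if i ∈ t then B i else Set.univ) := by
      ext w
      simp only [Set.mem_preimage, Set.mem_prod, Set.mem_pi, Finset.mem_coe, Finset.mem_union]
      constructor
      · rintro ⟨h1, h2⟩ i _
        refine ⟨?_, ?_⟩
        · by_cases hi : i ∈ s
          · simpa [hi] using h1 i hi
          · simp [hi]
        · by_cases hi : i ∈ t
          · simpa [hi] using h2 i hi
          · simp [hi]
      · intro h
        refine ⟨fun i hi => ?_, fun i hi => ?_⟩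
        · simpa [hi] using (h i (Or.inl hi)).1
        · simpa [hi] using (h i (Or.inr hi)).2
    rw [e, Measure.infinitePi_pi _ (fun i _ => by
      refine MeasurableSet.prod ?_ ?_
      · split_ifs
        · exact hA' i
        · exact MeasurableSet.univ
      · split_ifs
        · exact hB' i
        · exact MeasurableSet.univ), Measure.infinitePi_pi _ (fun i _ => hA' i),
      Measure.infinitePi_pi _ (fun i _ => hB' i)]
    simp only [Measure.prod_prod]
    rw [Finset.prod_mul_distrib]
    congr 1
    · rw [← Finset.prod_subset (Finset.subset_union_left (s₁ := s) (s₂ := t))]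
      · exact Finset.prod_congr rfl fun i hi => by simp [hi]
      · intro i _ hi
        simp [hi]
    · rw [← Finset.prod_subset (Finset.subset_union_right (s₁ := s) (s₂ := t))]
      · exact Finset.prod_congr rfl fun i hi => by simp [hi]
      · intro i _ hi
        simp [hi]

/-- a field which is a function of two independent iid fields -/
theorem zip_law (a : Measure X) (b : Measure Y) [IsProbabilityMeasure a]
    [IsProbabilityMeasure b] (f : X × Y → Z) (hf : Measurable f) :
    ((Measure.infinitePi fun _ : ι => a).prod (Measure.infinitePi fun _ : ι => b)).map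
      (fun p x => f (p.1 x, p.2 x)) = Measure.infinitePi fun _ : ι => (a.prod b).map f := by
  rw [← unzip_law a b, Measure.map_map]
  · exact Measure.infinitePi_map_pi (μ := fun _ : ι => a.prod b) (fun _ => hf)
  · exact measurable_pi_iff.2 fun x => hf.comp (by fun_prop)
  · fun_prop

/-- resampling on a set: `U` if `U ∉ N`, else a variable with the law of `U` conditioned on
`N` -/
theorem mix_law (ν : Measure ℝ) [IsProbabilityMeasure ν] (N : Set ℝ) (hN : MeasurableSet N)
    (h0 : ν N ≠ 0) [DecidablePred (· ∈ N)] :
    ((ProbabilityTheory.cond ν N).prod ν).map (fun p => if p.2 ∈ N then p.1 else p.2) = ν := by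
  have hc : IsProbabilityMeasure (ProbabilityTheory.cond ν N) := cond_isProbabilityMeasure h0
  have hm : Measurable (fun p : ℝ × ℝ => if p.2 ∈ N then p.1 else p.2) :=
    Measurable.ite (measurable_snd hN) measurable_fst measurable_snd
  ext S hS
  rw [Measure.map_apply hm hS]
  have e : (fun p : ℝ × ℝ => if p.2 ∈ N then p.1 else p.2) ⁻¹' S =
      (S ×ˢ N) ∪ (Set.univ ×ˢ (Nᶜ ∩ S)) := by
    ext p
    simp only [Set.mem_preimage, Set.mem_union, Set.mem_prod, Set.mem_inter_iff, Set.mem_univ,
      Set.mem_compl_iff, true_and]
    by_cases h : p.2 ∈ N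
    · simp [h]
    · simp [h]
  rw [e, measure_union _ (MeasurableSet.univ.prod (hN.compl.inter hS)), Measure.prod_prod,
    Measure.prod_prod, measure_univ, one_mul, cond_apply hN]
  · have h1 : (ν N)⁻¹ * ν (N ∩ S) * ν N = ν (N ∩ S) := by
      rw [mul_comm, ← mul_assoc, ENNReal.mul_inv_cancel h0 (measure_ne_top _ _), one_mul]
    rw [h1, Set.inter_comm N S, Set.inter_comm Nᶜ S, ← Set.sdiff_eq, measure_inter_add_sdiff S hN]
  · rw [Set.disjoint_left]
    rintro p ⟨_, h1⟩ ⟨_, h2, _⟩
    exact h2 h1

end Pool.Agent.K7.H96.NBT
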