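import Pool.Agent.H5R2.NB.ALL
import Pool.Agent.H5R2.NBA.ZAC

/-! # The averaged velocity vanishes at the sites where the law is absolutely continuous -/

set_option autoImplicit false

open MeasureTheory Filter Topology ProbabilityTheory
open scoped BigOperators ENNReal NNReal InnerProductSpace ComplexConjugate

namespace Pool.Agent.K7.H96.NBT

open Pool.Agent.H5R2.NB Pool.Agent.H5R2.NBA

/-- restriction of the law to a set where it has a bounded density -/
theorem zero_bd {d : ℕ} {c : ℝ} {ev : (Site d → ℝ) → UG (L2 (Site d))}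
    (hev : ∀ V, IsGrp c V (ev V)) (ν : Measure ℝ) [IsProbabilityMeasure ν] (E : Set ℝ)
    (hE : MeasurableSet E) (C : ℝ≥0) (hC : ν.restrict E ≤ C • volume) {j : Fin d}
    {v : L2 (Site d) →L[ℂ] L2 (Site d)} (hv : IsVel c j v) {Nk : ℕ → ℕ}
    (hNk : Tendsto Nk atTop atTop)
    (hgood : ∀ᵐ V ∂(PP d ν), ∃ B : L2 (Site d) →L[ℂ] L2 (Site d), Good (ev V) v Nk B) :
    ∀ᵐ V ∂(PP d ν), V 0 ∈ E → ∀ B : L2 (Site d) →L[ℂ] L2 (Site d), Good (ev V) v Nk B →
      B (dl 0) = 0 := by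
  obtain ⟨hmp, -⟩ := t_RES d ν
  have hcont := ALL.a_CV d c ev hev
  have hmeas0 : MeasurableSet {V : Site d → ℝ |
      Tendsto (fun n => avP (ev V) v (Nk n) (dl 0)) atTop (𝓝 0)} := by
    have e1 : {V : Site d → ℝ | Tendsto (fun n => avP (ev V) v (Nk n) (dl 0)) atTop (𝓝 0)} =
        {V : Site d → ℝ | Tendsto (fun n => ‖avP (ev V) v (Nk n) (dl 0)‖) atTop (𝓝 0)} := by
      ext V
      exact tendsto_zero_iff_norm_tendsto_zero
    rw [e1]
    refine measurableSet_tendsto (𝓝 0) fun n => ?_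
    exact (ZERO.avP_continuous ev hcont v (Nk n) (dl 0)).norm.measurable
  have hE0 : MeasurableSet {V : Site d → ℝ | V 0 ∈ E} := (measurable_pi_apply 0) hE
  have hmeas : MeasurableSet {V : Site d → ℝ | V 0 ∈ E →
      Tendsto (fun n => avP (ev V) v (Nk n) (dl 0)) atTop (𝓝 0)} := by
    have : {V : Site d → ℝ | V 0 ∈ E →
        Tendsto (fun n => avP (ev V) v (Nk n) (dl 0)) atTop (𝓝 0)} =
        {V : Site d → ℝ | V 0 ∈ E}ᶜ ∪ {V : Site d → ℝ |
          Tendsto (fun n => avP (ev V) v (Nk n) (dl 0)) atTop (𝓝 0)} := by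
      ext V
      simp only [Set.mem_ofPred_eq, Set.mem_union, Set.mem_compl_iff]
      exact imp_iff_not_or
    rw [this]
    exact hE0.compl.union hmeas0
  have hg2 : ∀ᵐ p ∂((PP d ν).prod ν), ∃ B : L2 (Site d) →L[ℂ] L2 (Site d),
      Good (ev (Function.update p.1 0 p.2)) v Nk B :=
    hmp.quasiMeasurePreserving.ae hgood
  have hg3 := Measure.ae_ae_of_ae_prod hg2
  have key : ∀ᵐ V ∂(PP d ν), ∀ᵐ κ ∂ν, κ ∈ E →
      Tendsto (fun n => avP (ev (Function.update V 0 κ)) v (Nk n) (dl 0)) atTop (𝓝 0) := by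
    by_cases hνE : ν E = 0
    · refine Eventually.of_forall fun V => ?_
      have : ∀ᵐ κ ∂ν, κ ∉ E := measure_eq_zero_iff_ae_notMem.1 hνE
      filter_upwards [this] with κ hκ hκ2
      exact absurd hκ2 hκ
    have hprob : IsProbabilityMeasure (cond ν E) := cond_isProbabilityMeasure hνE
    have hinv : (ν E)⁻¹ ≠ ∞ := ENNReal.inv_ne_top.2 hνE
    have hle : cond ν E ≤ ((ν E)⁻¹.toNNReal * C) • (volume : Measure ℝ) := by
      unfold ProbabilityTheory.cond
      intro S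
      have h1 := hC S
      simp only [Measure.smul_apply, smul_eq_mul] at h1 ⊢
      have h2 : (((ν E)⁻¹.toNNReal * C : ℝ≥0)) • (volume : Measure ℝ) S =
          (ν E)⁻¹ * (C • (volume : Measure ℝ) S) := by
        rw [ENNReal.smul_def, ENNReal.smul_def, ENNReal.coe_mul, ENNReal.coe_toNNReal hinv,
          smul_eq_mul, smul_eq_mul, mul_assoc]
      rw [h2]
      exact mul_le_mul_right h1 _
    have hac : cond ν E ≪ ν := cond_absolutelyContinuous
    filter_upwards [hg3] with V hV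
    classical
    set B : ℝ → L2 (Site d) →L[ℂ] L2 (Site d) := fun κ =>
      if h : ∃ B : L2 (Site d) →L[ℂ] L2 (Site d), Good (ev (Function.update V 0 κ)) v Nk B
      then h.choose else 0 with hB
    have hBg : ∀ᵐ κ ∂ν, Good (ev (Function.update V 0 κ)) v Nk (B κ) := by
      filter_upwards [hV] with κ hκ
      simp only [hB]
      rw [dif_pos hκ]
      exact hκ.choose_spec
    have hfam := t_FAM ALL.a_UN d c ev hev V
    have hpr := ALL.a_PROPR (Site d) (fun κ => ev (Function.update V 0 κ)) (dl 0) hfam (cond ν E)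
      _ hle v Nk hNk B (hac.ae_le hBg)
    have hpr2 : ∀ᵐ κ ∂ν, κ ∈ E → ∀ φ : L2 (Site d),
        (∀ t, ⟪φ, (ev (Function.update V 0 0)).U t (dl 0)⟫_ℂ = 0) → ⟪φ, B κ (dl 0)⟫_ℂ = 0 := by
      have hne : (ν E)⁻¹ ≠ 0 := ENNReal.inv_ne_zero.2 (measure_ne_top _ _)
      have h1 : ∀ᵐ κ ∂(ν.restrict E), ∀ φ : L2 (Site d),
          (∀ t, ⟪φ, (ev (Function.update V 0 0)).U t (dl 0)⟫_ℂ = 0) →
            ⟪φ, B κ (dl 0)⟫_ℂ = 0 := by
        have h2 := hpr
        unfold ProbabilityTheory.cond at h2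
        rwa [Measure.ae_ennreal_smul_measure_eq hne] at h2
      exact (ae_restrict_iff' hE).1 h1
    filter_upwards [hBg, hpr2] with κ hκ1 hκ2 hκE
    have ha : ∀ t, ⟪(ev (Function.update V 0 κ)).U t (dl 0), B κ (dl 0)⟫_ℂ = 0 :=
      t_ANTI (t_SYM ALL.a_UN) t_BP d c (Function.update V 0 κ) _ (hev _) j v hv Nk hNk (B κ) hκ1
    have hb : ∀ t, ⟪B κ (dl 0), (ev (Function.update V 0 κ)).U t (dl 0)⟫_ℂ = 0 := by
      intro t
      rw [← inner_conj_symm, ha t, map_zero]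
    have hcyc := (t_NN (Site d) (fun κ => ev (Function.update V 0 κ)) (dl 0) hfam κ 0
      (B κ (dl 0)) hb).1
    have h0 := hκ2 hκE (B κ (dl 0)) hcyc
    rw [inner_self_eq_zero] at h0
    have := (hκ1 (dl 0)).1
    rwa [h0] at this
  have hprod : ∀ᵐ p ∂((PP d ν).prod ν), Function.update p.1 0 p.2 ∈ {V : Site d → ℝ | V 0 ∈ E →
      Tendsto (fun n => avP (ev V) v (Nk n) (dl 0)) atTop (𝓝 0)} := by
    refine (Measure.ae_prod_iff_ae_ae ?_).2 ?_
    · exact hmp.measurable hmeas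
    · filter_upwards [key] with V hV
      filter_upwards [hV] with κ hκ hκE
      refine hκ ?_
      simpa using hκE
  have hfin : ∀ᵐ V ∂(PP d ν), V ∈ {V : Site d → ℝ | V 0 ∈ E →
      Tendsto (fun n => avP (ev V) v (Nk n) (dl 0)) atTop (𝓝 0)} := by
    rw [← hmp.map_eq]
    exact (ae_map_iff hmp.measurable.aemeasurable hmeas).2 hprod
  filter_upwards [hfin] with V hV hVE B hB
  exact tendsto_nhds_unique (hB (dl 0)).1 (hV hVE)

/-- at the sites with values outside `N`, where the law is absolutely continuous off `N` -/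
theorem zero_off {d : ℕ} {c : ℝ} {ev : (Site d → ℝ) → UG (L2 (Site d))}
    (hev : ∀ V, IsGrp c V (ev V)) (ν : Measure ℝ) [IsProbabilityMeasure ν] (N : Set ℝ)
    (hN : MeasurableSet N) (hac : ν.restrict Nᶜ ≪ volume) {j : Fin d}
    {v : L2 (Site d) →L[ℂ] L2 (Site d)} (hv : IsVel c j v) {Nk : ℕ → ℕ}
    (hNk : Tendsto Nk atTop atTop)
    (hgood : ∀ᵐ V ∂(PP d ν), ∃ B : L2 (Site d) →L[ℂ] L2 (Site d), Good (ev V) v Nk B) :
    ∀ᵐ V ∂(PP d ν), ∀ B : L2 (Site d) →L[ℂ] L2 (Site d), Good (ev V) v Nk B →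
      ∀ x : Site d, V x ∉ N → B (dl x) = 0 := by
  set g := (ν.restrict Nᶜ).rnDeriv volume with hg
  have hgm : Measurable g := Measure.measurable_rnDeriv _ _
  have hgd : volume.withDensity g = ν.restrict Nᶜ := Measure.withDensity_rnDeriv_eq _ _ hac
  set E : ℕ → Set ℝ := fun n => Nᶜ ∩ {κ | g κ ≤ n} with hEd
  have hE : ∀ n, MeasurableSet (E n) := fun n => hN.compl.inter (hgm measurableSet_Iic)
  have hEC : ∀ n : ℕ, ν.restrict (E n) ≤ (n : ℝ≥0) • (volume : Measure ℝ) := by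
    intro n
    refine Measure.le_iff.2 fun S hS => ?_
    rw [Measure.restrict_apply hS]
    have h1 : ν (S ∩ E n) = (ν.restrict Nᶜ) (S ∩ E n) := by
      rw [Measure.restrict_apply (hS.inter (hE n))]
      congr 1
      ext κ
      simp only [hEd, Set.mem_inter_iff, Set.mem_compl_iff]
      tauto
    rw [h1, ← hgd, withDensity_apply _ (hS.inter (hE n))]
    calc ∫⁻ κ in S ∩ E n, g κ ≤ ∫⁻ κ in S ∩ E n, (n : ℝ≥0∞) := by
          refine setLIntegral_mono measurable_const fun κ hκ => hκ.2.2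
      _ = n * volume (S ∩ E n) := by rw [setLIntegral_const]
      _ ≤ n * volume S := mul_le_mul_right (measure_mono Set.inter_subset_left) _
      _ = _ := by
          rw [Measure.smul_apply, ENNReal.smul_def, smul_eq_mul]
          simp
  have h0 : ∀ᵐ V ∂(PP d ν), ∀ n : ℕ, V 0 ∈ E n →
      ∀ B : L2 (Site d) →L[ℂ] L2 (Site d), Good (ev V) v Nk B → B (dl 0) = 0 := by
    rw [ae_all_iff]
    intro n
    exact zero_bd hev ν (E n) (hE n) n (hEC n) hv hNk hgood
  have hfin : ∀ᵐ κ ∂ν, κ ∉ N → g κ < ∞ := by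
    have h1 : ∀ᵐ κ ∂(ν.restrict Nᶜ), g κ < ∞ := by
      refine hac.ae_le ?_
      exact Measure.rnDeriv_lt_top _ _
    exact (ae_restrict_iff' hN.compl).1 h1
  have hfin0 : ∀ᵐ V ∂(PP d ν), V 0 ∉ N → g (V 0) < ∞ := by
    have : MeasurePreserving (fun V : Site d → ℝ => V 0) (PP d ν) ν :=
      measurePreserving_eval_infinitePi (fun _ : Site d => ν) 0
    exact this.quasiMeasurePreserving.ae hfin
  have h1 : ∀ᵐ V ∂(PP d ν), V 0 ∉ N →
      ∀ B : L2 (Site d) →L[ℂ] L2 (Site d), Good (ev V) v Nk B → B (dl 0) = 0 := by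
    filter_upwards [h0, hfin0] with V hV hV2 hVN B hB
    have h2 := hV2 hVN
    obtain ⟨n, hn⟩ := ENNReal.exists_nat_gt h2.ne
    exact hV n ⟨hVN, hn.le⟩ B hB
  have h2 : ∀ᵐ V ∂(PP d ν), ∀ z : Site d, V (0 + z) ∉ N →
      ∀ B : L2 (Site d) →L[ℂ] L2 (Site d), Good (ev fun y => V (y + z)) v Nk B →
        B (dl 0) = 0 := by
    rw [ae_all_iff]
    intro z
    exact ((t_RES d ν).2 z).quasiMeasurePreserving.ae h1
  filter_upwards [h2] with V hV B hB x hx
  obtain ⟨S, hS⟩ := (t_OPS d).1 x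
  obtain ⟨T, hT⟩ := (t_OPS d).1 (-x)
  have h4 := hV x (by simpa using hx) _ (ZAC.good_conj hev hv hS hT V Nk B hB)
  have h5 : T (dl 0) = dl x := by
    have := LIMB.shift_dl x T hT
    exact this
  have h6 : S (B (dl x)) = 0 := by
    rw [← h5]
    exact h4
  have h7 : T (S (B (dl x))) = B (dl x) := ZAC.inv2 hS hT _
  rw [← h7, h6, map_zero]

end Pool.Agent.K7.H96.NBT
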