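import Pool.Agent.K7.H96.NBT.Gen
import Pool.Agent.K7.H96.NBT.Law
import Pool.Agent.K7.H96.NBT.SiteZ
import Pool.Agent.K7.H96.NBT.Eig

/-! # The averaged velocity vanishes for laws which are not singular -/

set_option autoImplicit false

open MeasureTheory Filter Topology ProbabilityTheory
open scoped BigOperators ENNReal NNReal InnerProductSpace ComplexConjugate

namespace Pool.Agent.K7.H96.NBT

open Pool.Agent.H5R2.NB Pool.Agent.H5R2.NBA InnerProductSpace

variable {d : ℕ}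

theorem pr_eq (W : UG (L2 (Site d))) (e : L2 (Site d)) (N : ℕ) (φ : L2 (Site d)) :
    ((pr W e N φ : ℝ) : ℂ) = ⟪φ, av W e N φ⟫_ℂ := by
  rw [av_apply, inner_smul_right, inner_sum]
  unfold pr
  push_cast
  congr 1
  refine Finset.sum_congr rfl fun n _ => ?_
  rw [inner_smul_right, ← inner_conj_symm φ (W.U (n : ℝ) e), RCLike.mul_conj]
  simp

theorem pr_le (W : UG (L2 (Site d))) (e : L2 (Site d)) (N : ℕ) (φ : L2 (Site d)) :
    pr W e N φ ≤ ‖φ‖ * ‖av W e N φ‖ := by
  have h1 : ‖((pr W e N φ : ℝ) : ℂ)‖ ≤ ‖φ‖ * ‖av W e N φ‖ := by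
    rw [pr_eq]
    exact norm_inner_le_norm _ _
  rw [Complex.norm_real, Real.norm_eq_abs] at h1
  exact (le_abs_self _).trans h1

/-- the continuity of a state only depends on its orbit -/
theorem cs_transfer {W W' : UG (L2 (Site d))} {φ : L2 (Site d)}
    (h : ∀ t : ℝ, W'.U t φ = W.U t φ)
    (hφ : ∀ x : Site d, Tendsto (fun N => av W (dl x) N φ) atTop (𝓝 0)) (x : Site d) :
    Tendsto (fun N => av W' (dl x) N φ) atTop (𝓝 0) := by
  have e1 : ∀ N : ℕ, pr W' (dl x) N φ = pr W (dl x) N φ := by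
    intro N
    unfold pr
    congr 1
    refine Finset.sum_congr rfl fun n _ => ?_
    rw [inner_orbit, inner_orbit, h]
  have h1 : Tendsto (fun N => pr W' (dl x) N φ) atTop (𝓝 0) := by
    have h2 : Tendsto (fun N => ‖φ‖ * ‖av W (dl x) N φ‖) atTop (𝓝 0) := by
      have := ((hφ x).norm).const_mul ‖φ‖
      rwa [norm_zero, mul_zero] at this
    refine squeeze_zero (fun N => pr_nonneg _ _ _ _) (fun N => ?_) h2
    rw [e1]
    exact pr_le W (dl x) N φ
  have h3 : Tendsto (fun N => Real.sqrt (pr W' (dl x) N φ)) atTop (𝓝 0) := by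
    have := h1.sqrt
    rwa [Real.sqrt_zero] at this
  refine squeeze_zero_norm (fun N => ?_) h3
  exact Real.le_sqrt_of_sq_le (av_norm_sq_le W' (norm_dl x).le N φ)

/-- two groups agree on the states which never reach the sites where the potentials differ -/
theorem orbit_eq {c : ℝ} {V V' : Site d → ℝ} {W W' : UG (L2 (Site d))} (hW : IsGrp c V W)
    (hW' : IsGrp c V' W') {φ : L2 (Site d)} (h : ∀ x : Site d, V x ≠ V' x → ∀ t : ℝ,
      (W.U t φ) x = 0) (t : ℝ) : W'.U t φ = W.U t φ := by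
  have hs : IsSol c V' (fun t => W.U t φ) (fun _ => 0) := by
    refine ⟨(hW φ).1, fun t x => ?_⟩
    refine ((hW φ).2 t x).congr_deriv ?_
    have e : (V x : ℂ) * (W.U t φ) x = (V' x : ℂ) * (W.U t φ) x := by
      by_cases hx : V x = V' x
      · rw [hx]
      · rw [h x hx t, mul_zero, mul_zero]
    rw [e]
  have := ALL.a_UN d c V' W' hW' _ _ continuous_const hs t
  simpa [W.zero'] using this.symm

theorem meas_zero {c : ℝ} {ev : (Site d → ℝ) → UG (L2 (Site d))} (hev : ∀ V, IsGrp c V (ev V))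
    (v : L2 (Site d) →L[ℂ] L2 (Site d)) (Nk : ℕ → ℕ) :
    MeasurableSet {V : Site d → ℝ | ∀ z : Site d,
      Tendsto (fun n => avP (ev V) v (Nk n) (dl z)) atTop (𝓝 0)} := by
  have hcont := ALL.a_CV d c ev hev
  have e0 : {V : Site d → ℝ | ∀ z : Site d,
      Tendsto (fun n => avP (ev V) v (Nk n) (dl z)) atTop (𝓝 0)} =
      ⋂ z : Site d, {V : Site d → ℝ | Tendsto (fun n => ‖avP (ev V) v (Nk n) (dl z)‖) atTop
        (𝓝 0)} := by
    ext V
    simp only [Set.mem_iInter, Set.mem_ofPred_eq]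
    exact forall_congr' fun z => tendsto_zero_iff_norm_tendsto_zero
  rw [e0]
  refine MeasurableSet.iInter fun z => measurableSet_tendsto (𝓝 0) fun n => ?_
  exact (ZERO.avP_continuous ev hcont v (Nk n) (dl z)).norm.measurable

/-- a bounded operator which vanishes at all sites -/
theorem zero_of_dl {B : L2 (Site d) →L[ℂ] L2 (Site d)} (h : ∀ x : Site d, B (dl x) = 0) :
    B = 0 := by
  refine ContinuousLinearMap.ext_on (s := Set.range (dl (d := d)))
    (fun x => LIMB.dl_dense d x) ?_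
  rintro _ ⟨z, rfl⟩
  rw [h z]
  rfl

/-- **no ballistic transport for laws which are not singular** -/
theorem b_zero {c : ℝ} {ev : (Site d → ℝ) → UG (L2 (Site d))} (hev : ∀ V, IsGrp c V (ev V))
    (ν : Measure ℝ) [IsProbabilityMeasure ν] (N : Set ℝ) (hN : MeasurableSet N)
    (hac : ν.restrict Nᶜ ≪ volume) (hp : ν Nᶜ ≠ 0) {j : Fin d}
    {v : L2 (Site d) →L[ℂ] L2 (Site d)} (hv : IsVel c j v) {Nk : ℕ → ℕ}
    (hNk : Tendsto Nk atTop atTop)
    (hgood : ∀ᵐ V ∂(PP d ν), ∃ B : L2 (Site d) →L[ℂ] L2 (Site d), Good (ev V) v Nk B) :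
    ∀ᵐ V ∂(PP d ν), ∀ B : L2 (Site d) →L[ℂ] L2 (Site d), Good (ev V) v Nk B → B = 0 := by
  classical
  have hoff := zero_off hev ν N hN hac hv hNk hgood
  by_cases h0 : ν N = 0
  · have hx : ∀ᵐ V ∂(PP d ν), ∀ x : Site d, V x ∉ N := by
      rw [ae_all_iff]
      intro x
      have h1 : ∀ᵐ κ ∂ν, κ ∉ N := measure_eq_zero_iff_ae_notMem.1 h0
      have h2 : MeasurePreserving (fun V : Site d → ℝ => V x) (PP d ν) ν :=
        measurePreserving_eval_infinitePi (fun _ : Site d => ν) x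
      exact h2.quasiMeasurePreserving.ae h1
    filter_upwards [hoff, hx] with V hV hVx B hB
    exact zero_of_dl fun x => hV B hB x (hVx x)
  have hprob : IsProbabilityMeasure (cond ν N) := cond_isProbabilityMeasure h0
  set f : ℝ × ℝ → ℝ := fun p => if p.2 ∈ N then p.1 else p.2 with hf
  have hfm : Measurable f := Measurable.ite (measurable_snd hN) measurable_fst measurable_snd
  set Φ : (Site d → ℝ) × (Site d → ℝ) → (Site d → ℝ) := fun p x => f (p.1 x, p.2 x) with hΦ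
  have hΦm : Measurable Φ := measurable_pi_iff.2 fun x => hfm.comp (by fun_prop)
  have hmap : ((PP d (cond ν N)).prod (PP d ν)).map Φ = PP d ν := by
    unfold PP
    rw [zip_law (cond ν N) ν f hfm]
    have : ((cond ν N).prod ν).map f = ν := mix_law ν N hN h0
    simp only [this]
  have hmp : MeasurePreserving Φ ((PP d (cond ν N)).prod (PP d ν)) (PP d ν) := ⟨hΦm, hmap⟩
  obtain ⟨Mk, hMk, hsp⟩ := spread hev (cond ν N)
  -- the good event
  have h1 : ∀ᵐ W ∂(PP d (cond ν N)), ∀ᵐ U ∂(PP d ν),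
      (∃ B : L2 (Site d) →L[ℂ] L2 (Site d), Good (ev (Φ (W, U))) v Nk B) ∧
      (∀ B : L2 (Site d) →L[ℂ] L2 (Site d), Good (ev (Φ (W, U))) v Nk B →
        ∀ x : Site d, Φ (W, U) x ∉ N → B (dl x) = 0) :=
    Measure.ae_ae_of_ae_prod (hmp.quasiMeasurePreserving.ae (hgood.and hoff))
  have h2 : ∀ᵐ W ∂(PP d (cond ν N)), ∀ᵐ U ∂(PP d ν), ∀ φ : L2 (Site d),
      (∀ x : Site d, Tendsto (fun N => av (ev W) (dl x) N φ) atTop (𝓝 0)) →
      (∀ x : Site d, U x ∉ N → ∀ n : ℕ, ((ev W).U (-(n : ℝ)) φ) x = 0) → φ = 0 := by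
    filter_upwards [hsp] with W hW
    exact gen (ev W) Mk hMk hW ν N hN hp
  have h3 : ∀ᵐ W ∂(PP d (cond ν N)), ∀ᵐ U ∂(PP d ν), Φ (W, U) ∈ {V : Site d → ℝ |
      ∀ z : Site d, Tendsto (fun n => avP (ev V) v (Nk n) (dl z)) atTop (𝓝 0)} := by
    filter_upwards [h1, h2] with W hW1 hW2
    filter_upwards [hW1, hW2] with U hU1 hU2
    obtain ⟨⟨B, hB⟩, hU1⟩ := hU1
    set V := Φ (W, U) with hV
    have hBs : ∀ x y, ⟪B x, y⟫_ℂ = ⟪x, B y⟫_ℂ := AB.B_symm (ev V) v (STAT.vel_symm t_OPS c j v hv) Nk B hB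
    have hBU : ∀ t x, B ((ev V).U t x) = (ev V).U t (B x) :=
      (t_BP (Site d) (ev V) v Nk hNk B hB).2
    have hBx := hU1 B hB
    have hA : ∀ x : Site d, U x ∉ N → ∀ (t : ℝ) (u : L2 (Site d)), ((ev V).U t (B u)) x = 0 := by
      intro x hx t u
      have hVx : V x = U x := by
        simp only [hV, hΦ, hf]
        rw [if_neg hx]
      rw [← ANTI.dl_inner x, ← hBU, ← hBs, hBx x (by rw [hVx]; exact hx), inner_zero_left]
    have hzero : ∀ u, B u = 0 := by
      intro u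
      have hcs := fun x : Site d => av_range (ev V) B hBs (hBU 1)
        (fun φ z h => eig_zero (hev V) hv hNk hB h) (dl x) u
      have horb : ∀ t : ℝ, (ev W).U t (B u) = (ev V).U t (B u) := by
        refine orbit_eq (hev V) (hev W) fun x hx t => ?_
        refine hA x ?_ t u
        intro hUx
        apply hx
        simp only [hV, hΦ, hf]
        rw [if_pos hUx]
      refine hU2 (B u) (cs_transfer horb hcs) fun x hx n => ?_
      rw [horb]
      exact hA x hx _ u
    intro z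
    have := (hB (dl z)).1
    rwa [hzero] at this
  have h4 : ∀ᵐ p ∂((PP d (cond ν N)).prod (PP d ν)), Φ p ∈ {V : Site d → ℝ |
      ∀ z : Site d, Tendsto (fun n => avP (ev V) v (Nk n) (dl z)) atTop (𝓝 0)} :=
    (Measure.ae_prod_iff_ae_ae (hΦm (meas_zero hev v Nk))).2 h3
  have h5 : ∀ᵐ V ∂(PP d ν), V ∈ {V : Site d → ℝ |
      ∀ z : Site d, Tendsto (fun n => avP (ev V) v (Nk n) (dl z)) atTop (𝓝 0)} := by
    rw [← hmap]
    exact (ae_map_iff hΦm.aemeasurable (meas_zero hev v Nk)).2 h4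
  filter_upwards [h5] with V hV B hB
  exact zero_of_dl fun x => tendsto_nhds_unique (hB (dl x)).1 (hV x)

end Pool.Agent.K7.H96.NBT
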