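import Pool.Agent.K7.H96.NBT.HS

/-! # Operators which vanish on the eigenvectors -/

set_option autoImplicit false

open MeasureTheory Filter Topology
open scoped BigOperators ENNReal NNReal InnerProductSpace ComplexConjugate

namespace Pool.Agent.K7.H96.NBT

open Pool.Agent.H5R2.NB InnerProductSpace

section abs

variable {H : Type} [NormedAddCommGroup H] [InnerProductSpace ℂ H]

theorem cpt_rankOne (u : H) : IsCompactOperator (rankOne ℂ u u : H →L[ℂ] H) := by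
  have h0 : IsCompactOperator (id : ℂ → ℂ) :=
    (isCompactOperator_id_iff_finiteDimensional (𝕜 := ℂ)).2 inferInstance
  have h1 : IsCompactOperator ((id : ℂ → ℂ) ∘ (innerSL ℂ u)) := h0.comp_clm (innerSL ℂ u)
  have h2 := h1.clm_comp (ContinuousLinearMap.toSpanSingleton ℂ u)
  exact h2

/-- an eigenvector in a finite dimensional invariant eigenspace -/
theorem exists_joint [CompleteSpace H] (S U : H →L[ℂ] H) (hc : IsCompactOperator S)
    (hs : S.IsSymmetric) (hcomm : ∀ x, S (U x) = U (S x)) (h0 : S ≠ 0) :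
    ∃ (μ z : ℂ) (φ : H), μ ≠ 0 ∧ φ ≠ 0 ∧ S φ = μ • φ ∧ U φ = z • φ := by
  have h1 : ¬ ∀ μ, Module.End.HasEigenvalue (S : Module.End ℂ H) μ → μ = 0 := by
    rw [ContinuousLinearMap.eq_zero_of_forall_hasEigenvalue_eq_zero hc hs]
    exact h0
  push Not at h1
  obtain ⟨μ, hμ, hμ0⟩ := h1
  have hfd := ContinuousLinearMap.finite_dimensional_eigenspace hc μ hμ0
  have hnt : Nontrivial (Module.End.eigenspace (S : Module.End ℂ H) μ) := by
    rw [Submodule.nontrivial_iff_ne_bot]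
    exact (Module.End.hasEigenvalue_iff).1 hμ
  have hinv : ∀ x ∈ Module.End.eigenspace (S : Module.End ℂ H) μ,
      (U : H →ₗ[ℂ] H) x ∈ Module.End.eigenspace (S : Module.End ℂ H) μ := by
    intro x hx
    rw [Module.End.mem_eigenspace_iff] at hx ⊢
    show S (U x) = μ • U x
    rw [hcomm]
    have hx' : S x = μ • x := hx
    rw [hx', map_smul]
  obtain ⟨z, hz⟩ := Module.End.exists_eigenvalue ((U : H →ₗ[ℂ] H).restrict hinv)
  obtain ⟨φ, hφ⟩ := hz.exists_hasEigenvector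
  refine ⟨μ, z, φ, hμ0, ?_, ?_, ?_⟩
  · exact fun h => hφ.2 (Subtype.ext h)
  · exact Module.End.mem_eigenspace_iff.1 φ.2
  · have h2 := Module.End.mem_eigenspace_iff.1 hφ.1
    exact congrArg Subtype.val h2

/-- a symmetric operator which commutes with `U` and vanishes on the eigenvectors of `U` annihilates
the compact symmetric operators commuting with `U` -/
theorem kill [CompleteSpace H] (B K U : H →L[ℂ] H) (hc : IsCompactOperator K)
    (hK : ∀ x y, ⟪K x, y⟫_ℂ = ⟪x, K y⟫_ℂ) (hKU : ∀ x, K (U x) = U (K x))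
    (hB : ∀ x y, ⟪B x, y⟫_ℂ = ⟪x, B y⟫_ℂ) (hBU : ∀ x, B (U x) = U (B x))
    (h0 : ∀ (φ : H) (z : ℂ), U φ = z • φ → B φ = 0) (u : H) : K (B u) = 0 := by
  have hBK : ∀ x, B (K x) = 0 := by
    set S : H →L[ℂ] H := K.comp ((B.comp B).comp K) with hS
    have hSapp : ∀ x, S x = K (B (B (K x))) := fun x => rfl
    have hScpt : IsCompactOperator S := hc.comp_clm ((B.comp B).comp K)
    have hSsym : S.IsSymmetric := by
      intro x y
      show ⟪K (B (B (K x))), y⟫_ℂ = ⟪x, K (B (B (K y)))⟫_ℂ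
      rw [hK, hB, hB, hK]
    have hScomm : ∀ x, S (U x) = U (S x) := by
      intro x
      rw [hSapp, hSapp, hKU, hBU, hBU, hKU]
    have hS0 : S = 0 := by
      by_contra hne
      obtain ⟨μ, z, φ, hμ, hφ, h1, h2⟩ := exists_joint S U hScpt hSsym hScomm hne
      have h3 : U (K φ) = z • K φ := by
        rw [← hKU, h2, map_smul]
      have h4 := h0 (K φ) z h3
      rw [hSapp, h4, map_zero, map_zero] at h1
      rcases smul_eq_zero.1 h1.symm with h5 | h5
      · exact hμ h5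
      · exact hφ h5
    intro x
    have h1 : ⟪B (K x), B (K x)⟫_ℂ = ⟪x, S x⟫_ℂ := by
      rw [hSapp, hB, hK]
    rw [hS0] at h1
    simp only [zero_apply, inner_zero_right] at h1
    exact inner_self_eq_zero.1 h1
  have h1 : ⟪K (B u), K (B u)⟫_ℂ = 0 := by
    rw [hK, hB, hBK, inner_zero_right]
  exact inner_self_eq_zero.1 h1

end abs

variable {d : ℕ}

theorem cpt_av (W : UG (L2 (Site d))) (e : L2 (Site d)) (N : ℕ) :
    IsCompactOperator (av W e N) := by
  have : ∀ s : Finset ℕ, IsCompactOperator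
      (∑ n ∈ s, rankOne ℂ (W.U (n : ℝ) e) (W.U (n : ℝ) e) : L2 (Site d) →L[ℂ] L2 (Site d)) := by
    intro s
    classical
    induction s using Finset.induction_on with
    | empty => simpa using isCompactOperator_zero
    | insert n s hn ih =>
      rw [Finset.sum_insert hn]
      exact (cpt_rankOne _).add ih
  have h := (this (Finset.range N)).smul ((N : ℂ)⁻¹)
  exact h

theorem av_comm (W : UG (L2 (Site d))) (e : L2 (Site d)) (N : ℕ) (φ : L2 (Site d)) :
    ‖av W e N (W.U 1 φ) - W.U 1 (av W e N φ)‖ ≤ (N : ℝ)⁻¹ * (2 * ‖e‖ ^ 2 * ‖φ‖) := by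
  have h0 : ∀ n : ℕ, ⟪W.U ((n : ℝ)) e, W.U 1 φ⟫_ℂ • W.U (n : ℝ) e =
      ⟪W.U ((n : ℝ) - 1) e, φ⟫_ℂ • W.U (n : ℝ) e := by
    intro n
    congr 1
    have : W.U ((n : ℝ)) e = W.U 1 (W.U ((n : ℝ) - 1) e) := by
      rw [← W.add']
      congr 2
      ring
    rw [this, ANTI.inner_pres]
  have hsum : ∀ N : ℕ, ∑ n ∈ Finset.range N, ⟪W.U ((n : ℝ)) e, W.U 1 φ⟫_ℂ • W.U (n : ℝ) e -
      W.U 1 (∑ n ∈ Finset.range N, ⟪W.U ((n : ℝ)) e, φ⟫_ℂ • W.U (n : ℝ) e) =
      ⟪W.U ((0 : ℝ) - 1) e, φ⟫_ℂ • W.U (0 : ℝ) e -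
        ⟪W.U ((N : ℝ) - 1) e, φ⟫_ℂ • W.U (N : ℝ) e := by
    intro N
    induction N with
    | zero => simp
    | succ N ih =>
      rw [Finset.sum_range_succ, Finset.sum_range_succ, map_add, add_sub_add_comm, ih, h0,
        map_smul, ← W.add']
      push_cast
      have e1 : (N : ℝ) + 1 - 1 = N := by ring
      rw [e1, add_comm (1 : ℝ) N]
      abel
  rw [av_apply, av_apply, map_smul, ← smul_sub, hsum, norm_smul, norm_inv, Complex.norm_natCast]
  refine mul_le_mul_of_nonneg_left ?_ (by positivity)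
  have h1 : ∀ s t : ℝ, ‖⟪W.U s e, φ⟫_ℂ • W.U t e‖ ≤ ‖e‖ ^ 2 * ‖φ‖ := by
    intro s t
    rw [norm_smul, W.norm']
    have := norm_inner_le_norm (𝕜 := ℂ) (W.U s e) φ
    rw [W.norm'] at this
    calc ‖⟪W.U s e, φ⟫_ℂ‖ * ‖e‖ ≤ (‖e‖ * ‖φ‖) * ‖e‖ := mul_le_mul_of_nonneg_right this (norm_nonneg _)
      _ = _ := by ring
  refine (norm_sub_le _ _).trans ?_
  linarith [h1 ((0 : ℝ) - 1) 0, h1 ((N : ℝ) - 1) N]

/-- the limit of the averages -/
theorem exists_K (W : UG (L2 (Site d))) (e : L2 (Site d)) :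
    ∃ K : L2 (Site d) →L[ℂ] L2 (Site d), Tendsto (av W e) atTop (𝓝 K) ∧ IsCompactOperator K ∧
      (∀ x y, ⟪K x, y⟫_ℂ = ⟪x, K y⟫_ℂ) ∧ ∀ x, K (W.U 1 x) = W.U 1 (K x) := by
  obtain ⟨Y, hY⟩ := HN_tendsto W e
  have hcs : CauchySeq (HN W e) := hY.cauchySeq
  have hcs2 : CauchySeq (av W e) := by
    rw [Metric.cauchySeq_iff] at hcs ⊢
    intro ε hε
    obtain ⟨N, hN⟩ := hcs ε hε
    refine ⟨N, fun m hm n hn => ?_⟩
    have h1 := hN m hm n hn
    rw [dist_eq_norm] at h1 ⊢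
    refine lt_of_le_of_lt (hs_bound _ (HN W e m - HN W e n) fun y => ?_) h1
    rw [lp.coeFn_sub, Pi.sub_apply, HN_apply, HN_apply, sub_apply]
  obtain ⟨K, hK⟩ := cauchySeq_tendsto_of_complete hcs2
  have hpt : ∀ x, Tendsto (fun N => av W e N x) atTop (𝓝 (K x)) := fun x =>
    ((ContinuousLinearMap.apply ℂ (L2 (Site d)) x).continuous.tendsto K).comp hK
  refine ⟨K, hK, ?_, ?_, ?_⟩
  · exact isCompactOperator_of_tendsto hK (Eventually.of_forall fun N => cpt_av W e N)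
  · intro x y
    have h1 : Tendsto (fun N => ⟪av W e N x, y⟫_ℂ) atTop (𝓝 ⟪K x, y⟫_ℂ) :=
      (Continuous.tendsto (by fun_prop : Continuous fun f : L2 (Site d) => ⟪f, y⟫_ℂ) _).comp
        (hpt x)
    have h2 : Tendsto (fun N => ⟪x, av W e N y⟫_ℂ) atTop (𝓝 ⟪x, K y⟫_ℂ) :=
      (Continuous.tendsto (by fun_prop : Continuous fun f : L2 (Site d) => ⟪x, f⟫_ℂ) _).comp
        (hpt y)
    refine tendsto_nhds_unique h1 (h2.congr fun N => ?_)
    rw [av_symm]
  · intro x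
    have h1 := hpt (W.U 1 x)
    have h2 : Tendsto (fun N => W.U 1 (av W e N x)) atTop (𝓝 (W.U 1 (K x))) :=
      ((W.U 1).continuous.tendsto _).comp (hpt x)
    have h3 : Tendsto (fun N => av W e N (W.U 1 x) - W.U 1 (av W e N x)) atTop (𝓝 0) := by
      refine squeeze_zero_norm (fun N => av_comm W e N x) ?_
      have h4 : Tendsto (fun k : ℕ => (k : ℝ)⁻¹) atTop (𝓝 0) :=
        tendsto_inv_atTop_zero.comp tendsto_natCast_atTop_atTop
      simpa using h4.mul_const (2 * ‖e‖ ^ 2 * ‖x‖)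
    exact sub_eq_zero.1 (tendsto_nhds_unique h3 (h1.sub h2)).symm

/-- the averages along the orbit of `e` vanish in the limit on the range of a symmetric operator
which commutes with the group and vanishes on the eigenvectors -/
theorem av_range (W : UG (L2 (Site d))) (B : L2 (Site d) →L[ℂ] L2 (Site d))
    (hB : ∀ x y, ⟪B x, y⟫_ℂ = ⟪x, B y⟫_ℂ) (hBU : ∀ x, B (W.U 1 x) = W.U 1 (B x))
    (h0 : ∀ (φ : L2 (Site d)) (z : ℂ), W.U 1 φ = z • φ → B φ = 0) (e u : L2 (Site d)) :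
    Tendsto (fun N => av W e N (B u)) atTop (𝓝 0) := by
  obtain ⟨K, hK, hc, hs, hU⟩ := exists_K W e
  have h := kill B K (W.U 1) hc hs hU hB hBU h0 u
  have hpt : Tendsto (fun N => av W e N (B u)) atTop (𝓝 (K (B u))) :=
    ((ContinuousLinearMap.apply ℂ (L2 (Site d)) (B u)).continuous.tendsto K).comp hK
  rwa [h] at hpt

end Pool.Agent.K7.H96.NBT
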