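import Pool.Agent.K7.H96.NBT.Main
import Pool.Agent.R988.NQ.WF

/-! # The asymptotic velocity, final form -/

set_option autoImplicit false

open MeasureTheory Filter Topology ProbabilityTheory
open scoped BigOperators ENNReal NNReal InnerProductSpace ComplexConjugate

namespace Pool.Agent.K7.H96.NBT

open Pool.Agent.H5R2.NB Pool.Agent.H5R2.NBA InnerProductSpace

variable {d : ℕ}

theorem exists_null (ν : Measure ℝ) [IsProbabilityMeasure ν]
    (h : ¬ ν ⟂ₘ (volume : Measure ℝ)) :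
    ∃ N : Set ℝ, MeasurableSet N ∧ ν.restrict Nᶜ ≪ volume ∧ ν Nᶜ ≠ 0 := by
  obtain ⟨S, hS, h1, h2⟩ := ν.mutuallySingular_singularPart volume
  refine ⟨Sᶜ, hS.compl, ?_, ?_⟩
  · rw [compl_compl]
    have e : ν.restrict S = ((volume : Measure ℝ).withDensity (ν.rnDeriv volume)).restrict S := by
      conv_lhs => rw [← Measure.singularPart_add_rnDeriv ν volume]
      rw [Measure.restrict_add, Measure.restrict_eq_zero.2 h1, zero_add]
    rw [e]
    exact Measure.restrict_le_self.absolutelyContinuous.trans (withDensity_absolutelyContinuous _ _)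
  · rw [compl_compl]
    intro h3
    exact h ⟨S, hS, h3, h2⟩

theorem map_ns (μ : Measure ℝ) (a : ℝ) (h : ¬ μ ⟂ₘ (volume : Measure ℝ)) :
    ¬ (μ.map fun r : ℝ => a + 1 * r) ⟂ₘ (volume : Measure ℝ) := by
  rintro ⟨S, hS, h1, h2⟩
  have hg : Measurable fun r : ℝ => a + 1 * r := by fun_prop
  rw [Measure.map_apply hg hS] at h1
  refine h ⟨_, hg hS, h1, ?_⟩
  have hmp : MeasurePreserving (fun r : ℝ => a + 1 * r) volume volume := by
    simp only [one_mul]
    exact measurePreserving_add_left volume a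
  rw [← Set.preimage_compl, hmp.measure_preimage hS.compl.nullMeasurableSet]
  exact h2

/-- the asymptotic velocity: it exists, it vanishes on the absolutely continuous subspace if the law
is not a point mass, on the eigenvectors for all laws, and everywhere if the law is not
singular -/
theorem velocity {c : ℝ} {ev : (Site d → ℝ) → UG (L2 (Site d))} (hev : ∀ V, IsGrp c V (ev V))
    (ν : Measure ℝ) [IsProbabilityMeasure ν] {j : Fin d}
    {v : L2 (Site d) →L[ℂ] L2 (Site d)} (hv : IsVel c j v) :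
    ∀ᵐ V ∂(PP d ν), ∃ B : L2 (Site d) →L[ℂ] L2 (Site d),
      (∀ x, Tendsto (fun N : ℕ => avP (ev V) v N x) atTop (𝓝 (B x))) ∧
      ((∀ κ : ℝ, ν {κ} ≠ 1) → ∀ ψ ∈ HAC (ev V), B ψ = 0) ∧
      (∀ (φ : L2 (Site d)) (z : ℂ), (ev V).U 1 φ = z • φ → B φ = 0) ∧
      (¬ ν ⟂ₘ (volume : Measure ℝ) → B = 0) := by
  obtain ⟨Nk, b, hNk, hb, hae⟩ := ALL.a_LIM d c ev hev ν j v hv
  have hae' : ∀ᵐ V ∂(PP d ν), ∃ B : L2 (Site d) →L[ℂ] L2 (Site d), Good (ev V) v Nk B := by
    filter_upwards [hae] with V hV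
    obtain ⟨B, hB, _⟩ := hV
    exact ⟨B, hB⟩
  have hz : ∀ᵐ V ∂(PP d ν), ¬ ν ⟂ₘ (volume : Measure ℝ) →
      ∀ B : L2 (Site d) →L[ℂ] L2 (Site d), Good (ev V) v Nk B → B = 0 := by
    by_cases h : ν ⟂ₘ (volume : Measure ℝ)
    · exact Eventually.of_forall fun V h' => absurd h h'
    · obtain ⟨N, hN, h1, h2⟩ := exists_null ν h
      filter_upwards [b_zero hev ν N hN h1 h2 hv hNk hae'] with V hV _
      exact hV
  filter_upwards [Pool.Agent.R988.NQ.asymptotic (ν := ν) hev hv, hae', hz] with V h1 h2 h3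
  obtain ⟨B, hB1, hB2⟩ := h1
  obtain ⟨B', hB'⟩ := h2
  have e : B = B' := ContinuousLinearMap.ext fun x =>
    tendsto_nhds_unique ((hB1 x).comp hNk) (hB' x).1
  refine ⟨B, hB1, hB2, fun φ z hφ => ?_, fun h => ?_⟩
  · rw [e]
    exact eig_zero (hev V) hv hNk hB' hφ
  · rw [e]
    exact h3 h B' hB'

end Pool.Agent.K7.H96.NBT
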