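import Pool.Agent.K7.H96.NBT.Seq

/-! # Random sets of sites of positive density generate the continuous subspace -/

set_option autoImplicit false

open MeasureTheory Filter Topology
open scoped BigOperators ENNReal NNReal InnerProductSpace ComplexConjugate

namespace Pool.Agent.K7.H96.NBT

open Pool.Agent.H5R2.NB Pool.Agent.H5R2.NBA InnerProductSpace

section var

variable {ι Ω H : Type} [MeasurableSpace Ω] [NormedAddCommGroup H] [InnerProductSpace ℂ H]

theorem var_sum (P : Measure Ω) [IsProbabilityMeasure P] (F : Finset ι) (c : ι → Ω → ℝ)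
    (hm : ∀ x, Measurable (c x)) (hb : ∀ x ω, |c x ω| ≤ 1)
    (h0 : ∀ x y, x ≠ y → ∫ ω, c x ω * c y ω ∂P = 0) (a : ι → H) :
    ∫ ω, ‖∑ x ∈ F, (c x ω : ℂ) • a x‖ ^ 2 ∂P ≤ ∑ x ∈ F, ‖a x‖ ^ 2 := by
  have hexp : ∀ ω, ‖∑ x ∈ F, (c x ω : ℂ) • a x‖ ^ 2 =
      ∑ x ∈ F, ∑ y ∈ F, (c x ω * c y ω) * (⟪a x, a y⟫_ℂ).re := by
    intro ω
    have h1 : ‖∑ x ∈ F, (c x ω : ℂ) • a x‖ ^ 2 =
        (⟪∑ x ∈ F, (c x ω : ℂ) • a x, ∑ x ∈ F, (c x ω : ℂ) • a x⟫_ℂ).re := by
      have := norm_sq_eq_re_inner (𝕜 := ℂ) (∑ x ∈ F, (c x ω : ℂ) • a x)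
      simpa using this
    rw [h1, sum_inner, Complex.re_sum]
    refine Finset.sum_congr rfl fun x _ => ?_
    rw [inner_sum, Complex.re_sum]
    refine Finset.sum_congr rfl fun y _ => ?_
    rw [inner_smul_left, inner_smul_right, Complex.conj_ofReal, ← mul_assoc, ← Complex.ofReal_mul,
      Complex.re_ofReal_mul]
  have hint : ∀ x y, Integrable (fun ω => c x ω * c y ω) P := by
    intro x y
    refine Integrable.of_bound ((hm x).mul (hm y)).aestronglyMeasurable 1
      (Eventually.of_forall fun ω => ?_)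
    rw [Real.norm_eq_abs, abs_mul]
    exact mul_le_one₀ (hb x ω) (abs_nonneg _) (hb y ω)
  simp only [hexp]
  rw [integral_finsetSum _ (fun x _ => integrable_finsetSum _ fun y _ => (hint x y).mul_const _)]
  refine Finset.sum_le_sum fun x hx => ?_
  rw [integral_finsetSum _ (fun y _ => (hint x y).mul_const _), Finset.sum_eq_single x]
  · rw [integral_mul_const]
    have h2 : (⟪a x, a x⟫_ℂ).re = ‖a x‖ ^ 2 := by
      have := norm_sq_eq_re_inner (𝕜 := ℂ) (a x)
      simpa using this.symm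
    rw [h2]
    have h3 : ∫ ω, c x ω * c x ω ∂P ≤ 1 := by
      have h4 : ∫ ω, c x ω * c x ω ∂P ≤ ∫ _ω : Ω, (1 : ℝ) ∂P := by
        refine integral_mono (hint x x) (integrable_const _) fun ω => ?_
        have := hb x ω
        rw [← abs_mul_abs_self]
        exact mul_le_one₀ this (abs_nonneg _) this
      simpa using h4
    exact mul_le_of_le_one_left (by positivity) h3
  · intro y _ hy
    rw [integral_mul_const, h0 x y (Ne.symm hy), zero_mul]
  · intro h
    exact absurd hx h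

end var

variable {d : ℕ}

instance sep_L2 : TopologicalSpace.SeparableSpace (L2 (Site d)) := by
  have h1 : TopologicalSpace.IsSeparable (Set.range (dl (d := d))) :=
    (Set.countable_range _).isSeparable
  have h2 := (h1.span (R := ℂ)).closure
  have h3 : closure (Submodule.span ℂ (Set.range (dl (d := d))) : Set (L2 (Site d))) = Set.univ :=
    Set.eq_univ_of_forall fun x => LIMB.dl_dense d x
  rw [h3] at h2
  exact TopologicalSpace.isSeparable_univ_iff.1 h2

theorem av_hasSum (W : UG (L2 (Site d))) (N : ℕ) (hN : 0 < N) (ψ : L2 (Site d)) :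
    HasSum (fun x => av W (dl x) N ψ) ψ := by
  have hN' : (N : ℂ) ≠ 0 := by
    exact_mod_cast hN.ne'
  have h1 : HasSum (fun x : Site d => ∑ n ∈ Finset.range N,
      ⟪W.U (n : ℝ) (dl x), ψ⟫_ℂ • W.U (n : ℝ) (dl x)) (∑ _n ∈ Finset.range N, ψ) := by
    refine hasSum_sum fun n _ => ?_
    have hs : HasSum (fun y : Site d => (W.U (-(n : ℝ)) ψ) y • (dl y : L2 (Site d)))
        (W.U (-(n : ℝ)) ψ) := by
      have := lp.hasSum_single (p := 2) (by norm_num) (W.U (-(n : ℝ)) ψ)
      refine this.congr_fun ?_ |> fun h => h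
      intro y
      unfold dl
      rw [← lp.single_smul]
      simp
    have h2 := (W.U (n : ℝ)).hasSum hs
    have h3 : W.U (n : ℝ) (W.U (-(n : ℝ)) ψ) = ψ := by
      rw [← W.add', add_neg_cancel, W.zero']
    rw [h3] at h2
    refine h2.congr_fun ?_ |> fun h => h
    intro y
    rw [inner_orbit, map_smul]
  have h4 := h1.const_smul ((N : ℂ)⁻¹)
  rw [Finset.sum_const, Finset.card_range, ← Nat.cast_smul_eq_nsmul ℂ, smul_smul,
    inv_mul_cancel₀ hN', one_smul] at h4
  refine h4.congr_fun ?_ |> fun h => h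
  intro x
  rw [av_apply]

/-- a random set of sites of positive density generates the continuous subspace -/
theorem gen (W : UG (L2 (Site d))) (Nk : ℕ → ℕ) (hmono : StrictMono Nk)
    (hW : ∀ φ : L2 (Site d), (∀ x : Site d, Tendsto (fun N => av W (dl x) N φ) atTop (𝓝 0)) →
      Tendsto (fun k => ‖GN W (Nk k) φ‖) atTop (𝓝 0))
    (ν : Measure ℝ) [IsProbabilityMeasure ν] (N : Set ℝ) (hN : MeasurableSet N)
    (hp : ν Nᶜ ≠ 0) :
    ∀ᵐ U ∂(PP d ν), ∀ φ : L2 (Site d),
      (∀ x : Site d, Tendsto (fun N => av W (dl x) N φ) atTop (𝓝 0)) →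
      (∀ x : Site d, U x ∉ N → ∀ n : ℕ, (W.U (-(n : ℝ)) φ) x = 0) → φ = 0 := by
  have hP : IsProbabilityMeasure (PP d ν) := by
    unfold PP
    infer_instance
  classical
  set p : ℝ := (ν Nᶜ).toReal with hpd
  have hp0 : 0 < p := ENNReal.toReal_pos hp (measure_ne_top _ _)
  have hp1 : p ≤ 1 := by
    have : ν Nᶜ ≤ 1 := prob_le_one
    have := ENNReal.toReal_mono (by simp) this
    simpa using this
  set g : ℝ → ℝ := fun r => (Nᶜ).indicator (fun _ => (1 : ℝ)) r - p with hg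
  have hgm : Measurable g := (measurable_const.indicator hN.compl).sub_const p
  have hgb : ∀ r, |g r| ≤ 1 := by
    intro r
    simp only [hg]
    by_cases h : r ∈ Nᶜ
    · rw [Set.indicator_of_mem h, abs_le]
      constructor <;> linarith
    · rw [Set.indicator_of_notMem h, abs_le]
      constructor <;> linarith
  have hgi : ∫ r, g r ∂ν = 0 := by
    simp only [hg]
    rw [integral_sub ((integrable_const (1 : ℝ)).indicator hN.compl) (integrable_const _),
      integral_indicator hN.compl]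
    simp [hpd, Measure.real]
  set c : Site d → (Site d → ℝ) → ℝ := fun x U => g (U x) with hc
  have hcm : ∀ x, Measurable (c x) := fun x => hgm.comp (measurable_pi_apply x)
  have hcb : ∀ x U, |c x U| ≤ 1 := fun x U => hgb _
  have hc0 : ∀ x y, x ≠ y → ∫ U, c x U * c y U ∂(PP d ν) = 0 := by
    intro x y hxy
    have h1 := Measure.infinitePi_map_eval_prod (P := fun _ : Site d => ν) hxy
    have h2 : ∫ U, c x U * c y U ∂(PP d ν) =
        ∫ q : ℝ × ℝ, g q.1 * g q.2 ∂((PP d ν).map fun U => (U x, U y)) := by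
      rw [integral_map (by fun_prop)]
      exact ((hgm.comp measurable_fst).mul (hgm.comp measurable_snd)).aestronglyMeasurable
    rw [h2]
    unfold PP
    rw [h1, integral_prod_mul, hgi, zero_mul]
  set CS : Set (L2 (Site d)) := {φ | ∀ x : Site d,
    Tendsto (fun N => av W (dl x) N φ) atTop (𝓝 0)} with hCS
  -- one vector
  have key : ∀ ψ ∈ CS, ∀ᵐ U ∂(PP d ν), ∀ φ : L2 (Site d),
      (∀ x : Site d, U x ∉ N → ∀ n : ℕ, (W.U (-(n : ℝ)) φ) x = 0) → ⟪ψ, φ⟫_ℂ = 0 := by
    intro ψ hψ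
    have hF : ∀ k : ℕ, ∃ F : Finset (Site d),
        ‖ψ - ∑ x ∈ F, av W (dl x) (Nk (k + 1)) ψ‖ ≤ 1 / ((k : ℝ) + 1) := by
      intro k
      have hpos : 0 < Nk (k + 1) := lt_of_lt_of_le (Nat.succ_pos k) (hmono.id_le (k + 1))
      have h1 := av_hasSum W (Nk (k + 1)) hpos ψ
      have h2 := (Metric.tendsto_atTop.1 h1) (1 / ((k : ℝ) + 1)) (by positivity)
      obtain ⟨F, hF⟩ := h2
      refine ⟨F, ?_⟩
      have h3 := hF F le_rfl
      rw [dist_comm, dist_eq_norm] at h3
      exact h3.le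
    choose F hF using hF
    set a : ℕ → Site d → L2 (Site d) := fun k x => av W (dl x) (Nk (k + 1)) ψ with ha
    set S : ℕ → (Site d → ℝ) → L2 (Site d) := fun k U => ∑ x ∈ F k, (c x U : ℂ) • a k x with hS
    have hSm : ∀ k, Measurable fun U => ‖S k U‖ := by
      intro k
      have : Continuous fun w : (F k → ℝ) => ‖∑ x : F k, (w x : ℂ) • a k x‖ := by fun_prop
      have h2 : (fun U => ‖S k U‖) = (fun w : (F k → ℝ) => ‖∑ x : F k, (w x : ℂ) • a k x‖) ∘
          (fun U (x : F k) => c x U) := by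
        funext U
        simp only [Function.comp, hS]
        rw [← Finset.sum_coe_sort (F k) (fun x => (c x U : ℂ) • a k x)]
      rw [h2]
      exact this.measurable.comp (measurable_pi_iff.2 fun x => hcm x)
    have hSb : ∀ k U, ‖S k U‖ ≤ ∑ x ∈ F k, ‖a k x‖ := by
      intro k U
      refine (norm_sum_le _ _).trans (Finset.sum_le_sum fun x _ => ?_)
      rw [norm_smul, Complex.norm_real, Real.norm_eq_abs]
      exact mul_le_of_le_one_left (norm_nonneg _) (hcb x U)
    have hSint : ∀ k, Integrable (fun U => ‖S k U‖ ^ 2) (PP d ν) := by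
      intro k
      refine Integrable.of_bound ((hSm k).pow_const 2).aestronglyMeasurable
        ((∑ x ∈ F k, ‖a k x‖) ^ 2) (Eventually.of_forall fun U => ?_)
      rw [Real.norm_eq_abs, abs_of_nonneg (by positivity)]
      exact pow_le_pow_left₀ (norm_nonneg _) (hSb k U) 2
    have hSle : ∀ k, ∫⁻ U, ENNReal.ofReal (‖S k U‖ ^ 2) ∂(PP d ν) ≤
        ENNReal.ofReal (‖GN W (Nk (k + 1)) ψ‖ ^ 2) := by
      intro k
      rw [← ofReal_integral_eq_lintegral_ofReal (hSint k)
        (Eventually.of_forall fun U => by positivity)]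
      refine ENNReal.ofReal_le_ofReal ?_
      refine (var_sum (PP d ν) (F k) c hcm hcb hc0 (a k)).trans ?_
      have h := lp.hasSum_norm (p := 2) (by norm_num) (GN W (Nk (k + 1)) ψ)
      simp only [ENNReal.toReal_ofNat, Real.rpow_two] at h
      exact sum_le_hasSum (F k) (fun _ _ => by positivity) h
    have hlim : Tendsto (fun k => ENNReal.ofReal (‖GN W (Nk (k + 1)) ψ‖ ^ 2)) atTop (𝓝 0) := by
      have h1 := ((hW ψ hψ).comp (tendsto_add_atTop_nat 1)).pow 2
      rw [zero_pow two_ne_zero] at h1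
      have h2 := (ENNReal.continuous_ofReal.tendsto 0).comp h1
      rw [ENNReal.ofReal_zero] at h2
      exact h2
    have hlim2 : Tendsto (fun k => ∫⁻ U, ENNReal.ofReal (‖S k U‖ ^ 2) ∂(PP d ν)) atTop (𝓝 0) :=
      tendsto_of_tendsto_of_tendsto_of_le_of_le tendsto_const_nhds hlim (fun _ => bot_le) hSle
    have hfat : ∫⁻ U, liminf (fun k => ENNReal.ofReal (‖S k U‖ ^ 2)) atTop ∂(PP d ν) = 0 := by
      refine le_antisymm ?_ bot_le
      refine (lintegral_liminf_le fun k => ((hSm k).pow_const 2).ennreal_ofReal).trans ?_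
      rw [hlim2.liminf_eq]
    have hae : ∀ᵐ U ∂(PP d ν), liminf (fun k => ENNReal.ofReal (‖S k U‖ ^ 2)) atTop = 0 := by
      have hmm : Measurable fun U => liminf (fun k => ENNReal.ofReal (‖S k U‖ ^ 2)) atTop :=
        Measurable.liminf fun k => ((hSm k).pow_const 2).ennreal_ofReal
      exact (lintegral_eq_zero_iff hmm).1 hfat
    filter_upwards [hae] with U hU φ hφ
    have hav0 : ∀ x, U x ∉ N → ∀ n : ℕ, av W (dl x) n φ = 0 := by
      intro x hx n
      rw [av_apply]
      have : ∑ m ∈ Finset.range n, ⟪W.U (m : ℝ) (dl x), φ⟫_ℂ • W.U (m : ℝ) (dl x) = 0 := by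
        refine Finset.sum_eq_zero fun m _ => ?_
        rw [inner_orbit, hφ x hx m, zero_smul]
      rw [this, smul_zero]
    have hid : ∀ k, (p : ℂ) * ⟪ψ, φ⟫_ℂ =
        (p : ℂ) * ⟪ψ - ∑ x ∈ F k, a k x, φ⟫_ℂ - ⟪S k U, φ⟫_ℂ := by
      intro k
      have h1 : ⟪S k U, φ⟫_ℂ = -((p : ℂ) * ⟪∑ x ∈ F k, a k x, φ⟫_ℂ) := by
        simp only [hS]
        rw [sum_inner, sum_inner, Finset.mul_sum, ← Finset.sum_neg_distrib]
        refine Finset.sum_congr rfl fun x _ => ?_
        rw [inner_smul_left, Complex.conj_ofReal]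
        by_cases hx : U x ∈ N
        · have : c x U = -p := by
            simp only [hc, hg]
            rw [Set.indicator_of_notMem (by simpa using hx)]
            ring
          rw [this]
          push_cast
          ring
        · have : ⟪a k x, φ⟫_ℂ = 0 := by
            simp only [ha]
            rw [av_symm, hav0 x hx, inner_zero_right]
          rw [this]
          simp
      rw [h1, inner_sub_left]
      ring
    have hbd : ∀ k : ℕ, p * ‖⟪ψ, φ⟫_ℂ‖ ≤ (1 / ((k : ℝ) + 1) + ‖S k U‖) * ‖φ‖ := by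
      intro k
      have h1 := congrArg norm (hid k)
      rw [norm_mul, Complex.norm_real, Real.norm_eq_abs, abs_of_pos hp0] at h1
      rw [h1]
      refine (norm_sub_le _ _).trans ?_
      rw [norm_mul, Complex.norm_real, Real.norm_eq_abs, abs_of_pos hp0, add_mul]
      refine add_le_add ?_ (norm_inner_le_norm _ _)
      have h2 : ‖⟪ψ - ∑ x ∈ F k, a k x, φ⟫_ℂ‖ ≤ 1 / ((k : ℝ) + 1) * ‖φ‖ :=
        (norm_inner_le_norm _ _).trans (mul_le_mul_of_nonneg_right (hF k) (norm_nonneg _))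
      exact (mul_le_of_le_one_left (norm_nonneg _) hp1).trans h2
    by_contra hne
    have hpos : 0 < p * ‖⟪ψ, φ⟫_ℂ‖ := mul_pos hp0 (norm_pos_iff.2 hne)
    have hφ0 : 0 < ‖φ‖ := by
      rw [norm_pos_iff]
      rintro rfl
      exact hne (inner_zero_right _)
    set ε : ℝ := p * ‖⟪ψ, φ⟫_ℂ‖ / (4 * ‖φ‖) with hε
    have hε0 : 0 < ε := by positivity
    have hfr : ∃ᶠ k in atTop, ENNReal.ofReal (‖S k U‖ ^ 2) < ENNReal.ofReal (ε ^ 2) := by
      refine frequently_lt_of_liminf_lt (by isBoundedDefault) ?_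
      rw [hU]
      exact ENNReal.ofReal_pos.2 (by positivity)
    have hev : ∀ᶠ k : ℕ in atTop, 1 / ((k : ℝ) + 1) < ε :=
      (tendsto_order.1 tendsto_one_div_add_atTop_nhds_zero_nat).2 ε hε0
    obtain ⟨k, hk1, hk2⟩ := (hfr.and_eventually hev).exists
    have hk3 : ‖S k U‖ < ε := by
      have := (ENNReal.ofReal_lt_ofReal_iff (by positivity)).1 hk1
      exact lt_of_pow_lt_pow_left₀ 2 hε0.le this
    have h5 := hbd k
    have h6 : (1 / ((k : ℝ) + 1) + ‖S k U‖) * ‖φ‖ < (ε + ε) * ‖φ‖ :=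
      mul_lt_mul_of_pos_right (by linarith) hφ0
    have h7 : (ε + ε) * ‖φ‖ = p * ‖⟪ψ, φ⟫_ℂ‖ / 2 := by
      simp only [hε]
      field_simp
      ring
    rw [h7] at h6
    linarith
  obtain ⟨D, hDc, hDd⟩ := TopologicalSpace.exists_countable_dense CS
  have hall : ∀ᵐ U ∂(PP d ν), ∀ ψ ∈ D, ∀ φ : L2 (Site d),
      (∀ x : Site d, U x ∉ N → ∀ n : ℕ, (W.U (-(n : ℝ)) φ) x = 0) →
        ⟪(ψ : L2 (Site d)), φ⟫_ℂ = 0 := by
    rw [ae_ball_iff hDc]
    intro ψ _
    exact key ψ ψ.2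
  filter_upwards [hall] with U hU φ hφ1 hφ2
  have hcl : IsClosed {ψ : CS | ⟪(ψ : L2 (Site d)), φ⟫_ℂ = 0} := by
    have hcont : Continuous fun ψ : CS => ⟪(ψ : L2 (Site d)), φ⟫_ℂ := by fun_prop
    exact isClosed_eq hcont continuous_const
  have hsub : D ⊆ {ψ : CS | ⟪(ψ : L2 (Site d)), φ⟫_ℂ = 0} := fun ψ hψ => hU ψ hψ φ hφ2
  have h8 : (⟨φ, hφ1⟩ : CS) ∈ {ψ : CS | ⟪(ψ : L2 (Site d)), φ⟫_ℂ = 0} := by
    have := hcl.closure_subset_iff.2 hsub
    exact this (hDd _)
  exact inner_self_eq_zero.1 h8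

end Pool.Agent.K7.H96.NBT
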