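import Pool.Agent.H5R2.NB.ALL

/-! # Averaged rank one operators along an orbit, Hilbert–Schmidt convergence -/

set_option autoImplicit false

open MeasureTheory Filter Topology
open scoped BigOperators ENNReal NNReal InnerProductSpace ComplexConjugate

namespace Pool.Agent.K7.H96.NBT

open Pool.Agent.H5R2.NB InnerProductSpace

variable {d : ℕ}

/-- `φ ↦ (1/N) ∑_{n<N} ⟨U_n e, φ⟩ U_n e` -/
noncomputable def av (W : UG (L2 (Site d))) (e : L2 (Site d)) (N : ℕ) :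
    L2 (Site d) →L[ℂ] L2 (Site d) :=
  ((N : ℂ)⁻¹) • ∑ n ∈ Finset.range N, rankOne ℂ (W.U (n : ℝ) e) (W.U (n : ℝ) e)

theorem av_apply (W : UG (L2 (Site d))) (e : L2 (Site d)) (N : ℕ) (φ : L2 (Site d)) :
    av W e N φ = ((N : ℂ)⁻¹) • ∑ n ∈ Finset.range N,
      ⟪W.U (n : ℝ) e, φ⟫_ℂ • W.U (n : ℝ) e := by
  unfold av
  rw [smul_apply, sum_apply]
  simp only [rankOne_apply]

theorem av_symm (W : UG (L2 (Site d))) (e : L2 (Site d)) (N : ℕ) (φ ψ : L2 (Site d)) :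
    ⟪av W e N φ, ψ⟫_ℂ = ⟪φ, av W e N ψ⟫_ℂ := by
  rw [av_apply, av_apply, inner_smul_left, inner_smul_right, sum_inner, inner_sum]
  congr 1
  · simp
  · refine Finset.sum_congr rfl fun n _ => ?_
    rw [inner_smul_left, inner_smul_right, inner_conj_symm, mul_comm]

/-- the averaged probability -/
noncomputable def pr (W : UG (L2 (Site d))) (e : L2 (Site d)) (N : ℕ) (φ : L2 (Site d)) : ℝ :=
  (N : ℝ)⁻¹ * ∑ n ∈ Finset.range N, ‖⟪W.U (n : ℝ) e, φ⟫_ℂ‖ ^ 2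

theorem pr_nonneg (W : UG (L2 (Site d))) (e : L2 (Site d)) (N : ℕ) (φ : L2 (Site d)) :
    0 ≤ pr W e N φ := by
  unfold pr
  positivity

theorem av_norm_sq_le (W : UG (L2 (Site d))) {e : L2 (Site d)} (he : ‖e‖ ≤ 1) (N : ℕ)
    (φ : L2 (Site d)) : ‖av W e N φ‖ ^ 2 ≤ pr W e N φ := by
  rcases Nat.eq_zero_or_pos N with rfl | hN
  · rw [av_apply]
    simp [pr]
  have hN' : (0 : ℝ) < N := by exact_mod_cast hN
  rw [av_apply, norm_smul, norm_inv, Complex.norm_natCast, mul_pow]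
  have h1 : ‖∑ n ∈ Finset.range N, ⟪W.U (n : ℝ) e, φ⟫_ℂ • W.U (n : ℝ) e‖ ≤
      ∑ n ∈ Finset.range N, ‖⟪W.U (n : ℝ) e, φ⟫_ℂ‖ := by
    refine (norm_sum_le _ _).trans (Finset.sum_le_sum fun n _ => ?_)
    rw [norm_smul, W.norm']
    exact mul_le_of_le_one_right (norm_nonneg _) he
  have h2 : (∑ n ∈ Finset.range N, ‖⟪W.U (n : ℝ) e, φ⟫_ℂ‖) ^ 2 ≤
      N * ∑ n ∈ Finset.range N, ‖⟪W.U (n : ℝ) e, φ⟫_ℂ‖ ^ 2 := by
    have := sq_sum_le_card_mul_sum_sq (s := Finset.range N)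
      (f := fun n : ℕ => ‖⟪W.U (n : ℝ) e, φ⟫_ℂ‖)
    simpa using this
  have h3 : ‖∑ n ∈ Finset.range N, ⟪W.U (n : ℝ) e, φ⟫_ℂ • W.U (n : ℝ) e‖ ^ 2 ≤
      N * ∑ n ∈ Finset.range N, ‖⟪W.U (n : ℝ) e, φ⟫_ℂ‖ ^ 2 :=
    (pow_le_pow_left₀ (norm_nonneg _) h1 2).trans h2
  unfold pr
  calc ((N : ℝ)⁻¹) ^ 2 * ‖∑ n ∈ Finset.range N, ⟪W.U (n : ℝ) e, φ⟫_ℂ • W.U (n : ℝ) e‖ ^ 2 ≤
      ((N : ℝ)⁻¹) ^ 2 * (N * ∑ n ∈ Finset.range N, ‖⟪W.U (n : ℝ) e, φ⟫_ℂ‖ ^ 2) :=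
        mul_le_mul_of_nonneg_left h3 (by positivity)
    _ = _ := by field_simp

/-- the space of Hilbert–Schmidt operators (as the sequences of the images of the `δ_y`) -/
abbrev HS (d : ℕ) : Type := lp (fun _ : Site d => L2 (Site d)) 2

theorem rk_mem (u : L2 (Site d)) :
    Memℓp (fun y : Site d => (starRingEnd ℂ (u y)) • u) 2 := by
  rw [memℓp_gen_iff (by norm_num)]
  have h : Summable fun y : Site d => ‖u y‖ ^ 2 * ‖u‖ ^ 2 := (MOM.hasSum_sq u).summable.mul_right _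
  refine h.congr fun y => ?_
  rw [norm_smul, RCLike.norm_conj]
  simp [mul_pow]

/-- the rank one operator `⟨u, ·⟩ u` -/
noncomputable def rk (u : L2 (Site d)) : HS d := ⟨fun y => (starRingEnd ℂ (u y)) • u, rk_mem u⟩

theorem rk_apply (u : L2 (Site d)) (y : Site d) : (rk u) y = (starRingEnd ℂ (u y)) • u := rfl

theorem inner_rk (a b : L2 (Site d)) : ⟪rk a, rk b⟫_ℂ = ⟪b, a⟫_ℂ * ⟪a, b⟫_ℂ := by
  rw [lp.inner_eq_tsum]
  have h : ∀ y : Site d, ⟪(rk a) y, (rk b) y⟫_ℂ = (⟪b y, a y⟫_ℂ) * ⟪a, b⟫_ℂ := by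
    intro y
    rw [rk_apply, rk_apply, inner_smul_left, inner_smul_right, RCLike.conj_conj, RCLike.inner_apply]
    ring
  simp only [h]
  rw [tsum_mul_right, ← lp.inner_eq_tsum]

/-- the average as a Hilbert–Schmidt operator -/
noncomputable def HN (W : UG (L2 (Site d))) (e : L2 (Site d)) (N : ℕ) : HS d :=
  ((N : ℂ)⁻¹) • ∑ n ∈ Finset.range N, rk (W.U (n : ℝ) e)

theorem inner_dl (u : L2 (Site d)) (y : Site d) : ⟪u, dl y⟫_ℂ = starRingEnd ℂ (u y) := by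
  rw [← inner_conj_symm, ANTI.dl_inner]

theorem HN_apply (W : UG (L2 (Site d))) (e : L2 (Site d)) (N : ℕ) (y : Site d) :
    (HN W e N) y = av W e N (dl y) := by
  rw [av_apply]
  unfold HN
  rw [lp.coeFn_smul, Pi.smul_apply, lp.coeFn_sum, Finset.sum_apply]
  congr 1
  refine Finset.sum_congr rfl fun n _ => ?_
  rw [rk_apply, inner_dl]

theorem HN_tendsto (W : UG (L2 (Site d))) (e : L2 (Site d)) :
    ∃ Y : HS d, Tendsto (HN W e) atTop (𝓝 Y) := by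
  obtain ⟨Y, hY, -⟩ := t_ME (HS d) (fun n : ℤ => rk (W.U ((n : ℤ) : ℝ) e)) (by
    intro m n
    rw [inner_rk, inner_rk]
    have h : ∀ m n : ℤ, ⟪W.U (((m + 1 : ℤ)) : ℝ) e, W.U (((n + 1 : ℤ)) : ℝ) e⟫_ℂ =
        ⟪W.U ((m : ℤ) : ℝ) e, W.U ((n : ℤ) : ℝ) e⟫_ℂ := by
      intro m n
      have e1 : (((m + 1 : ℤ)) : ℝ) = 1 + (m : ℝ) := by push_cast; ring
      have e2 : (((n + 1 : ℤ)) : ℝ) = 1 + (n : ℝ) := by push_cast; ring
      rw [e1, e2, W.add', W.add', ANTI.inner_pres]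
    rw [h, h])
  exact ⟨Y, hY⟩

/-- the operator norm is at most the Hilbert–Schmidt norm -/
theorem hs_bound (D : L2 (Site d) →L[ℂ] L2 (Site d)) (F : HS d) (h : ∀ y, F y = D (dl y)) :
    ‖D‖ ≤ ‖F‖ := by
  refine D.opNorm_le_bound (norm_nonneg _) fun φ => ?_
  have hs : HasSum (fun y : Site d => φ y • (dl y : L2 (Site d))) φ := by
    have := lp.hasSum_single (p := 2) (by norm_num) φ
    refine this.congr_fun ?_ |> fun h => h
    intro y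
    unfold dl
    rw [← lp.single_smul]
    simp
  have hD : HasSum (fun y : Site d => φ y • D (dl y)) (D φ) := by
    have := D.hasSum hs
    refine this.congr_fun ?_ |> fun h => h
    intro y
    simp
  refine le_of_tendsto hD.norm (Eventually.of_forall fun G => ?_)
  show ‖∑ y ∈ G, φ y • D (dl y)‖ ≤ _
  have h1 : ‖∑ y ∈ G, φ y • D (dl y)‖ ≤ ∑ y ∈ G, ‖φ y‖ * ‖F y‖ := by
    refine (norm_sum_le _ _).trans (Finset.sum_le_sum fun y _ => ?_)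
    rw [norm_smul, h]
  have h2 : (∑ y ∈ G, ‖φ y‖ * ‖F y‖) ^ 2 ≤ (∑ y ∈ G, ‖φ y‖ ^ 2) * ∑ y ∈ G, ‖F y‖ ^ 2 :=
    Finset.sum_mul_sq_le_sq_mul_sq G _ _
  have h3 : ∑ y ∈ G, ‖φ y‖ ^ 2 ≤ ‖φ‖ ^ 2 :=
    sum_le_hasSum G (fun _ _ => by positivity) (MOM.hasSum_sq φ)
  have h4 : ∑ y ∈ G, ‖F y‖ ^ 2 ≤ ‖F‖ ^ 2 := by
    have := lp.hasSum_norm (p := 2) (by norm_num) F
    simp only [ENNReal.toReal_ofNat, Real.rpow_two] at this
    exact sum_le_hasSum G (fun _ _ => by positivity) this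
  have h5 : (∑ y ∈ G, ‖φ y‖ * ‖F y‖) ^ 2 ≤ (‖F‖ * ‖φ‖) ^ 2 := by
    refine h2.trans ?_
    rw [mul_pow, mul_comm]
    exact mul_le_mul h4 h3 (by positivity) (by positivity)
  exact h1.trans (le_of_sq_le_sq h5 (by positivity))

end Pool.Agent.K7.H96.NBT
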