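import Pool.Agent.K7.H96.NBT.Spread

/-! # Almost sure spreading along a deterministic sequence of times -/

set_option autoImplicit false

open MeasureTheory Filter Topology
open scoped BigOperators ENNReal NNReal InnerProductSpace ComplexConjugate

namespace Pool.Agent.K7.H96.NBT

open Pool.Agent.H5R2.NB Pool.Agent.H5R2.NBA InnerProductSpace

variable {d : ℕ}

theorem cauchy_dense {Y : Type} [NormedAddCommGroup Y] [NormedSpace ℂ Y]
    (T : ℕ → L2 (Site d) →L[ℂ] Y) (hT : ∀ k φ, ‖T k φ‖ ≤ ‖φ‖)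
    (h : ∀ z : Site d, CauchySeq fun k => T k (dl z)) (φ : L2 (Site d)) :
    CauchySeq fun k => T k φ := by
  have hspan : ∀ ψ ∈ Submodule.span ℂ (Set.range (dl (d := d))), CauchySeq fun k => T k ψ := by
    intro ψ hψ
    induction hψ using Submodule.span_induction with
    | mem x hx =>
      obtain ⟨z, rfl⟩ := hx
      exact h z
    | zero =>
      simp only [map_zero]
      exact cauchySeq_const 0
    | add x y _ _ hx hy =>
      simp only [map_add]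
      exact hx.add hy
    | smul a x _ hx =>
      simp only [map_smul]
      exact (uniformContinuous_const_smul a).comp_cauchySeq hx
  have hcl := LIMB.dl_dense d φ
  rw [Metric.cauchySeq_iff]
  intro ε hε
  obtain ⟨ψ, hψ, hd⟩ := Metric.mem_closure_iff.1 hcl (ε / 3) (by positivity)
  obtain ⟨N, hN⟩ := Metric.cauchySeq_iff.1 (hspan ψ hψ) (ε / 3) (by positivity)
  refine ⟨N, fun m hm n hn => ?_⟩
  have h1 := hN m hm n hn
  have h2 : ∀ k, dist (T k φ) (T k ψ) < ε / 3 := by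
    intro k
    rw [dist_eq_norm, ← map_sub]
    refine lt_of_le_of_lt (hT k _) ?_
    rwa [dist_eq_norm] at hd
  calc dist (T m φ) (T n φ) ≤ dist (T m φ) (T m ψ) + dist (T m ψ) (T n ψ) +
        dist (T n ψ) (T n φ) := dist_triangle4 _ _ _ _
    _ < ε / 3 + ε / 3 + ε / 3 := by
        have := h2 n
        rw [dist_comm] at this
        linarith [h2 m]
    _ = ε := by ring

variable {ν : Measure ℝ} [IsProbabilityMeasure ν]

theorem meas_GN {c : ℝ} {ev : (Site d → ℝ) → UG (L2 (Site d))} (hev : ∀ V, IsGrp c V (ev V))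
    (φ : L2 (Site d)) (N M : ℕ) :
    Measurable fun V => ‖GN (ev V) N φ - GN (ev V) M φ‖ₑ ^ 2 := by
  have h1 : (fun V => ‖GN (ev V) N φ - GN (ev V) M φ‖ₑ ^ 2) = fun V =>
      ∑' x : Site d, ‖av (ev V) (dl x) N φ - av (ev V) (dl x) M φ‖ₑ ^ 2 := by
    funext V
    rw [← enorm_sq_hs]
    rfl
  rw [h1]
  exact Measurable.tsum fun x =>
    (((av_cont hev _ φ N).sub (av_cont hev _ φ M)).enorm.measurable).pow_const 2

theorem exists_seq {c : ℝ} {ev : (Site d → ℝ) → UG (L2 (Site d))} (hev : ∀ V, IsGrp c V (ev V))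
    (ν : Measure ℝ) [IsProbabilityMeasure ν] :
    ∃ Nk : ℕ → ℕ, StrictMono Nk ∧ ∀ᵐ V ∂(PP d ν), ∀ φ : L2 (Site d),
      CauchySeq fun k => GN (ev V) (Nk k) φ := by
  have hP : IsProbabilityMeasure (PP d ν) := by
    unfold PP
    infer_instance
  have hc := cauchy_mean (ν := ν) hev
  have hex : ∀ k : ℕ, ∃ N0 : ℕ, ∀ n m : ℕ, N0 ≤ n → N0 ≤ m →
      ∫⁻ V, ‖HN (ev V) (dl 0) n - HN (ev V) (dl 0) m‖ₑ ^ 2 ∂(PP d ν) ≤ (8 : ℝ≥0∞)⁻¹ ^ k := by
    intro k
    have hpos : (0 : ℝ≥0∞) < (8 : ℝ≥0∞)⁻¹ ^ k := by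
      refine ENNReal.pow_pos ?_ k
      simp
    have h1 := (tendsto_order.1 hc).2 _ hpos
    rw [prod_atTop_atTop_eq, eventually_atTop] at h1
    obtain ⟨⟨a, b⟩, hab⟩ := h1
    refine ⟨max a b, fun n m hn hm => ?_⟩
    exact (hab (n, m) ⟨(le_max_left a b).trans hn, (le_max_right a b).trans hm⟩).le
  choose f hf using hex
  set Nk : ℕ → ℕ := fun k => k + ∑ i ∈ Finset.range (k + 1), f i with hNk
  have hmono : StrictMono Nk := by
    refine strictMono_nat_of_lt_succ fun k => ?_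
    simp only [hNk]
    rw [Finset.sum_range_succ _ (k + 1)]
    omega
  have hge : ∀ k, f k ≤ Nk k := by
    intro k
    simp only [hNk]
    have : f k ≤ ∑ i ∈ Finset.range (k + 1), f i :=
      Finset.single_le_sum (f := f) (fun _ _ => Nat.zero_le _) (Finset.mem_range.2 (Nat.lt_succ_self k))
    omega
  refine ⟨Nk, hmono, ?_⟩
  have hz : ∀ᵐ V ∂(PP d ν), ∀ z : Site d, ∑' k : ℕ, (4 : ℝ≥0∞) ^ k *
      ‖GN (ev V) (Nk k) (dl z) - GN (ev V) (Nk (k + 1)) (dl z)‖ₑ ^ 2 < ∞ := by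
    rw [ae_all_iff]
    intro z
    refine ae_lt_top (Measurable.tsum fun k => (meas_GN hev _ _ _).const_mul _) ?_
    rw [lintegral_tsum (fun k => ((meas_GN hev _ _ _).const_mul _).aemeasurable)]
    have h1 : ∀ k : ℕ, ∫⁻ V, (4 : ℝ≥0∞) ^ k *
        ‖GN (ev V) (Nk k) (dl z) - GN (ev V) (Nk (k + 1)) (dl z)‖ₑ ^ 2 ∂(PP d ν) ≤
        (2 : ℝ≥0∞)⁻¹ ^ k := by
      intro k
      rw [lintegral_const_mul _ (meas_GN hev _ _ _), mtp hev]
      have h2 := hf k (Nk k) (Nk (k + 1)) (hge k) ((hge k).trans (hmono (Nat.lt_succ_self k)).le)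
      calc (4 : ℝ≥0∞) ^ k * ∫⁻ V, ‖HN (ev V) (dl 0) (Nk k) -
            HN (ev V) (dl 0) (Nk (k + 1))‖ₑ ^ 2 ∂(PP d ν) ≤ 4 ^ k * (8 : ℝ≥0∞)⁻¹ ^ k := by gcongr
        _ = (4 * (8 : ℝ≥0∞)⁻¹) ^ k := by rw [mul_pow]
        _ = (2 : ℝ≥0∞)⁻¹ ^ k := by
            congr 1
            have : (8 : ℝ≥0∞) = 4 * 2 := by norm_num
            rw [this, ENNReal.mul_inv (by norm_num) (by norm_num), ← mul_assoc,
              ENNReal.mul_inv_cancel (by norm_num) (by norm_num), one_mul]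
    refine ne_top_of_le_ne_top ?_ (ENNReal.tsum_le_tsum h1)
    rw [ENNReal.tsum_geometric]
    simp
  filter_upwards [hz] with V hV φ
  refine cauchy_dense (fun k => GN (ev V) (Nk k)) (fun k φ => GN_norm (ev V) (Nk k) φ) ?_ φ
  intro z
  have hS := hV z
  set S := ∑' k : ℕ, (4 : ℝ≥0∞) ^ k *
      ‖GN (ev V) (Nk k) (dl z) - GN (ev V) (Nk (k + 1)) (dl z)‖ₑ ^ 2 with hSd
  refine cauchySeq_of_le_geometric (1 / 2) (Real.sqrt S.toReal) (by norm_num) fun k => ?_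
  have h1 : (4 : ℝ≥0∞) ^ k *
      ‖GN (ev V) (Nk k) (dl z) - GN (ev V) (Nk (k + 1)) (dl z)‖ₑ ^ 2 ≤ S :=
    ENNReal.le_tsum k
  have h2 : (4 : ℝ) ^ k * ‖GN (ev V) (Nk k) (dl z) - GN (ev V) (Nk (k + 1)) (dl z)‖ ^ 2 ≤
      S.toReal := by
    have h3 := ENNReal.toReal_mono hS.ne h1
    rw [ENNReal.toReal_mul, ENNReal.toReal_pow, ENNReal.toReal_pow, toReal_enorm] at h3
    simpa using h3
  rw [dist_eq_norm]
  have h4 : ‖GN (ev V) (Nk k) (dl z) - GN (ev V) (Nk (k + 1)) (dl z)‖ ^ 2 ≤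
      (Real.sqrt S.toReal * (1 / 2) ^ k) ^ 2 := by
    rw [mul_pow, Real.sq_sqrt ENNReal.toReal_nonneg, ← pow_mul, mul_comm k 2, pow_mul]
    have h5 : ((1 / 2 : ℝ) ^ 2) ^ k = ((4 : ℝ) ^ k)⁻¹ := by
      rw [← inv_pow]
      norm_num
    rw [h5, ← div_eq_mul_inv, le_div_iff₀ (by positivity), mul_comm]
    exact h2
  exact le_of_sq_le_sq h4 (by positivity)

/-- along a deterministic sequence of times, almost surely the time averaged positions of all the
states in the continuous subspace spread out -/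
theorem spread {c : ℝ} {ev : (Site d → ℝ) → UG (L2 (Site d))} (hev : ∀ V, IsGrp c V (ev V))
    (ν : Measure ℝ) [IsProbabilityMeasure ν] :
    ∃ Nk : ℕ → ℕ, StrictMono Nk ∧ ∀ᵐ V ∂(PP d ν), ∀ φ : L2 (Site d),
      (∀ x : Site d, Tendsto (fun N => av (ev V) (dl x) N φ) atTop (𝓝 0)) →
        Tendsto (fun k => ‖GN (ev V) (Nk k) φ‖) atTop (𝓝 0) := by
  obtain ⟨Nk, hmono, h⟩ := exists_seq hev ν
  refine ⟨Nk, hmono, ?_⟩
  filter_upwards [h] with V hV φ hφ
  obtain ⟨Φ, hΦ⟩ := cauchySeq_tendsto_of_complete (hV φ)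
  have h0 : Φ = 0 := by
    ext1
    funext x
    have h1 : Tendsto (fun k => (GN (ev V) (Nk k) φ) x) atTop (𝓝 (Φ x)) := by
      rw [tendsto_iff_norm_sub_tendsto_zero] at hΦ ⊢
      refine squeeze_zero (fun _ => norm_nonneg _) (fun k => ?_) hΦ
      rw [← Pi.sub_apply, ← lp.coeFn_sub]
      exact lp.norm_apply_le_norm (by norm_num) _ x
    exact tendsto_nhds_unique h1 ((hφ x).comp hmono.tendsto_atTop)
  rw [h0] at hΦ
  have := hΦ.norm
  rwa [norm_zero] at this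

end Pool.Agent.K7.H96.NBT
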