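import Pool.Agent.K7.H96.NBT.Cpt
import Pool.Agent.H5R2.NBA.ZAC

/-! # Time averaged positions of the states of the Anderson model spread out -/

set_option autoImplicit false

open MeasureTheory Filter Topology
open scoped BigOperators ENNReal NNReal InnerProductSpace ComplexConjugate

namespace Pool.Agent.K7.H96.NBT

open Pool.Agent.H5R2.NB Pool.Agent.H5R2.NBA InnerProductSpace

variable {d : ℕ}

theorem enorm_sq_hs (F : HS d) : ∑' x, ‖F x‖ₑ ^ 2 = ‖F‖ₑ ^ 2 := by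
  have h : HasSum (fun x => ‖F x‖ ^ 2) (‖F‖ ^ 2) := by
    have h := lp.hasSum_norm (p := 2) (by norm_num) F
    simpa [ENNReal.toReal_ofNat, Real.rpow_two] using h
  rw [← ofReal_norm, ← ENNReal.ofReal_pow (norm_nonneg _), ← h.tsum_eq,
    ENNReal.ofReal_tsum_of_nonneg (fun x => by positivity) h.summable]
  refine tsum_congr fun x => ?_
  rw [← ofReal_norm, ← ENNReal.ofReal_pow (norm_nonneg _)]

/-! ### The vector of all averages -/

theorem inner_orbit (W : UG (L2 (Site d))) (x : Site d) (t : ℝ) (φ : L2 (Site d)) :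
    ⟪W.U t (dl x), φ⟫_ℂ = (W.U (-t) φ) x := by
  rw [ANTI.inner_adj, ANTI.dl_inner]

theorem norm_dl (x : Site d) : ‖(dl x : L2 (Site d))‖ = 1 := by
  unfold dl
  rw [lp.norm_single (by norm_num)]
  simp

theorem pr_hasSum (W : UG (L2 (Site d))) (N : ℕ) (hN : 0 < N) (φ : L2 (Site d)) :
    HasSum (fun x => pr W (dl x) N φ) (‖φ‖ ^ 2) := by
  have h1 : HasSum (fun x : Site d => ∑ n ∈ Finset.range N, ‖⟪W.U (n : ℝ) (dl x), φ⟫_ℂ‖ ^ 2)
      (∑ _n ∈ Finset.range N, ‖φ‖ ^ 2) := by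
    refine hasSum_sum fun n _ => ?_
    have h2 := MOM.hasSum_sq (W.U (-(n : ℝ)) φ)
    rw [W.norm'] at h2
    refine h2.congr_fun ?_ |> fun h => h
    intro x
    rw [inner_orbit]
  have h3 := h1.mul_left ((N : ℝ)⁻¹)
  have hN' : (N : ℝ) ≠ 0 := by positivity
  rw [Finset.sum_const, Finset.card_range, nsmul_eq_mul, ← mul_assoc, inv_mul_cancel₀ hN',
    one_mul] at h3
  exact h3

theorem pr_zero (W : UG (L2 (Site d))) (e φ : L2 (Site d)) : pr W e 0 φ = 0 := by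
  simp [pr]

theorem pr_summable (W : UG (L2 (Site d))) (N : ℕ) (φ : L2 (Site d)) :
    Summable fun x => pr W (dl x) N φ := by
  rcases Nat.eq_zero_or_pos N with rfl | hN
  · simp only [pr_zero]
    exact summable_zero
  · exact (pr_hasSum W N hN φ).summable

theorem pr_tsum_le (W : UG (L2 (Site d))) (N : ℕ) (φ : L2 (Site d)) :
    ∑' x, pr W (dl x) N φ ≤ ‖φ‖ ^ 2 := by
  rcases Nat.eq_zero_or_pos N with rfl | hN
  · simp only [pr_zero, tsum_zero]
    positivity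
  · exact (pr_hasSum W N hN φ).tsum_eq.le

theorem GN_mem (W : UG (L2 (Site d))) (N : ℕ) (φ : L2 (Site d)) :
    Memℓp (fun x : Site d => av W (dl x) N φ) 2 := by
  rw [memℓp_gen_iff (by norm_num)]
  simp only [ENNReal.toReal_ofNat, Real.rpow_two]
  exact Summable.of_nonneg_of_le (fun x => by positivity)
    (fun x => av_norm_sq_le W (norm_dl x).le N φ) (pr_summable W N φ)

/-- the vector of the averages at all sites -/
noncomputable def GN (W : UG (L2 (Site d))) (N : ℕ) : L2 (Site d) →L[ℂ] HS d :=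
  LinearMap.mkContinuous
    { toFun := fun φ => ⟨fun x => av W (dl x) N φ, GN_mem W N φ⟩
      map_add' := fun φ ψ => by
        ext1
        funext x
        exact map_add _ _ _
      map_smul' := fun a φ => by
        ext1
        funext x
        exact map_smul _ _ _ } 1 (by
    intro φ
    set F : HS d := ⟨fun x => av W (dl x) N φ, GN_mem W N φ⟩ with hF
    rw [one_mul]
    have h : HasSum (fun x => ‖F x‖ ^ 2) (‖F‖ ^ 2) := by
      have h := lp.hasSum_norm (p := 2) (by norm_num) F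
      simpa [ENNReal.toReal_ofNat, Real.rpow_two] using h
    have h1 : ‖F‖ ^ 2 ≤ ‖φ‖ ^ 2 := by
      rw [← h.tsum_eq]
      refine (h.summable.tsum_le_tsum (fun x => av_norm_sq_le W (norm_dl x).le N φ)
        (pr_summable W N φ)).trans (pr_tsum_le W N φ)
    exact le_of_sq_le_sq h1 (norm_nonneg _))

theorem GN_apply (W : UG (L2 (Site d))) (N : ℕ) (φ : L2 (Site d)) (x : Site d) :
    (GN W N φ) x = av W (dl x) N φ := rfl

theorem GN_norm (W : UG (L2 (Site d))) (N : ℕ) (φ : L2 (Site d)) : ‖GN W N φ‖ ≤ ‖φ‖ := by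
  have := (GN W N).le_of_opNorm_le (LinearMap.mkContinuous_norm_le _ zero_le_one _) φ
  rwa [one_mul] at this

/-! ### Covariance -/

theorem av_shift {c : ℝ} {ev : (Site d → ℝ) → UG (L2 (Site d))} (hev : ∀ V, IsGrp c V (ev V))
    {z : Site d} {S T : L2 (Site d) →L[ℂ] L2 (Site d)} (hS : IsShift z S) (hT : IsShift (-z) T)
    (V : Site d → ℝ) (e φ : L2 (Site d)) (N : ℕ) :
    av (ev fun y => V (y + z)) (S e) N (S φ) = S (av (ev V) e N φ) := by
  rw [av_apply, av_apply, map_smul, map_sum]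
  congr 1
  refine Finset.sum_congr rfl fun n _ => ?_
  rw [map_smul, ALL.a_COV d c ev hev z S hS V, STAT.shift_inner z S T hS hT, ZAC.inv2 hS hT]

theorem shift_dl' (z x : Site d) (S : L2 (Site d) →L[ℂ] L2 (Site d)) (hS : IsShift z S) :
    S (dl x) = dl (x - z) := by
  ext y
  rw [hS]
  unfold dl
  rw [lp.single_apply, lp.single_apply, Pi.single_apply, Pi.single_apply]
  by_cases h : y + z = x
  · rw [if_pos h, if_pos (by rw [← h]; simp)]
  · rw [if_neg h, if_neg]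
    intro h2
    apply h
    rw [h2]
    simp

theorem norm_shift {z : Site d} {S : L2 (Site d) →L[ℂ] L2 (Site d)} (hS : IsShift z S)
    (φ : L2 (Site d)) : ‖S φ‖ = ‖φ‖ := by
  obtain ⟨T, hT⟩ := (t_OPS d).1 (-z)
  have hS' : IsShift (-(-z)) S := by rw [neg_neg]; exact hS
  exact ZAC.normT hT hS' φ

theorem diff_shift {c : ℝ} {ev : (Site d → ℝ) → UG (L2 (Site d))} (hev : ∀ V, IsGrp c V (ev V))
    (V : Site d → ℝ) (x z : Site d) (N M : ℕ) :
    ‖av (ev V) (dl x) N (dl z) - av (ev V) (dl x) M (dl z)‖ₑ =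
      ‖av (ev fun y => V (y + x)) (dl 0) N (dl (z - x)) -
        av (ev fun y => V (y + x)) (dl 0) M (dl (z - x))‖ₑ := by
  obtain ⟨S, hS⟩ := (t_OPS d).1 x
  obtain ⟨T, hT⟩ := (t_OPS d).1 (-x)
  have h1 := fun N : ℕ => av_shift hev hS hT V (dl x) (dl z) N
  rw [shift_dl' x x S hS, shift_dl' x z S hS, sub_self] at h1
  rw [h1, h1, ← map_sub, ← ofReal_norm, ← ofReal_norm, norm_shift hS]

theorem av_cont {c : ℝ} {ev : (Site d → ℝ) → UG (L2 (Site d))} (hev : ∀ V, IsGrp c V (ev V))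
    (e φ : L2 (Site d)) (N : ℕ) : Continuous fun V => av (ev V) e N φ := by
  have hU := ALL.a_CV d c ev hev
  have h1 : ∀ t : ℝ, Continuous fun V => (ev V).U t e := fun t =>
    hU.comp (by fun_prop : Continuous fun V : Site d → ℝ =>
      ((V, t, e) : (Site d → ℝ) × ℝ × L2 (Site d)))
  simp only [av_apply]
  have h2 : ∀ n : ℕ, Continuous fun V => ⟪(ev V).U (n : ℝ) e, φ⟫_ℂ • (ev V).U (n : ℝ) e := by
    intro n
    have h4 : Continuous fun f : L2 (Site d) => ⟪f, φ⟫_ℂ • f := by fun_prop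
    exact h4.comp (h1 (n : ℝ))
  have h3 : Continuous fun V => ∑ n ∈ Finset.range N,
      ⟪(ev V).U (n : ℝ) e, φ⟫_ℂ • (ev V).U (n : ℝ) e :=
    continuous_finsetSum _ fun n _ => h2 n
  exact h3.const_smul ((N : ℂ)⁻¹)

variable {ν : Measure ℝ} [IsProbabilityMeasure ν]

/-- mass transport -/
theorem mtp {c : ℝ} {ev : (Site d → ℝ) → UG (L2 (Site d))} (hev : ∀ V, IsGrp c V (ev V))
    (z : Site d) (N M : ℕ) :
    ∫⁻ V, ‖GN (ev V) N (dl z) - GN (ev V) M (dl z)‖ₑ ^ 2 ∂(PP d ν) =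
      ∫⁻ V, ‖HN (ev V) (dl 0) N - HN (ev V) (dl 0) M‖ₑ ^ 2 ∂(PP d ν) := by
  have hm : ∀ e φ : L2 (Site d), Measurable fun V : Site d → ℝ =>
      ‖av (ev V) e N φ - av (ev V) e M φ‖ₑ ^ 2 := fun e φ =>
    (((av_cont hev e φ N).sub (av_cont hev e φ M)).enorm.measurable).pow_const 2
  have h1 : ∀ V, ‖GN (ev V) N (dl z) - GN (ev V) M (dl z)‖ₑ ^ 2 =
      ∑' x : Site d, ‖av (ev V) (dl x) N (dl z) - av (ev V) (dl x) M (dl z)‖ₑ ^ 2 := by
    intro V
    rw [← enorm_sq_hs]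
    rfl
  have h2 : ∀ V, ‖HN (ev V) (dl 0) N - HN (ev V) (dl 0) M‖ₑ ^ 2 =
      ∑' y : Site d, ‖av (ev V) (dl 0) N (dl y) - av (ev V) (dl 0) M (dl y)‖ₑ ^ 2 := by
    intro V
    rw [← enorm_sq_hs]
    refine tsum_congr fun y => ?_
    rw [lp.coeFn_sub, Pi.sub_apply, HN_apply, HN_apply]
  simp only [h1, h2]
  rw [lintegral_tsum (fun x => (hm _ _).aemeasurable), lintegral_tsum (fun x => (hm _ _).aemeasurable)]
  have h3 : ∀ x : Site d,
      ∫⁻ V, ‖av (ev V) (dl x) N (dl z) - av (ev V) (dl x) M (dl z)‖ₑ ^ 2 ∂(PP d ν) =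
      ∫⁻ V, ‖av (ev V) (dl 0) N (dl (z - x)) - av (ev V) (dl 0) M (dl (z - x))‖ₑ ^ 2
        ∂(PP d ν) := by
    intro x
    simp only [diff_shift hev _ x z]
    have hmp := (t_RES d ν).2 x
    rw [← hmp.lintegral_comp (hm (dl 0) (dl (z - x)))]
  simp only [h3]
  exact (Equiv.subLeft z).tsum_eq (fun y : Site d =>
    ∫⁻ V, ‖av (ev V) (dl 0) N (dl y) - av (ev V) (dl 0) M (dl y)‖ₑ ^ 2 ∂(PP d ν))

theorem norm_rk (u : L2 (Site d)) : ‖rk u‖ = ‖u‖ ^ 2 := by
  have h1 := inner_rk u u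
  rw [inner_self_eq_norm_sq_to_K, inner_self_eq_norm_sq_to_K] at h1
  have h2 : ‖rk u‖ ^ 2 = (‖u‖ ^ 2) ^ 2 := by
    have : ((‖rk u‖ ^ 2 : ℝ) : ℂ) = (((‖u‖ ^ 2) ^ 2 : ℝ) : ℂ) := by
      push_cast
      rw [sq ((‖u‖ : ℂ) ^ 2)]
      exact h1
    exact_mod_cast this
  exact (sq_eq_sq₀ (norm_nonneg _) (by positivity)).1 h2

theorem HN_norm (W : UG (L2 (Site d))) {e : L2 (Site d)} (he : ‖e‖ ≤ 1) (N : ℕ) :
    ‖HN W e N‖ ≤ 1 := by
  unfold HN
  rw [norm_smul, norm_inv, Complex.norm_natCast]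
  have h1 : ‖∑ n ∈ Finset.range N, rk (W.U (n : ℝ) e)‖ ≤ N := by
    refine (norm_sum_le _ _).trans ?_
    have : ∀ n ∈ Finset.range N, ‖rk (W.U (n : ℝ) e)‖ ≤ 1 := by
      intro n _
      rw [norm_rk, W.norm']
      exact pow_le_one₀ (norm_nonneg _) he
    refine (Finset.sum_le_sum this).trans ?_
    simp
  rcases Nat.eq_zero_or_pos N with rfl | hN
  · simp
  · have hN' : (0 : ℝ) < N := by exact_mod_cast hN
    rw [inv_mul_le_iff₀ hN', mul_one]
    exact h1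

/-- the averages form a Cauchy sequence in mean square, uniformly in the position -/
theorem cauchy_mean {c : ℝ} {ev : (Site d → ℝ) → UG (L2 (Site d))} (hev : ∀ V, IsGrp c V (ev V)) :
    Tendsto (fun p : ℕ × ℕ => ∫⁻ V, ‖HN (ev V) (dl 0) p.1 - HN (ev V) (dl 0) p.2‖ₑ ^ 2
      ∂(PP d ν)) (atTop ×ˢ atTop) (𝓝 0) := by
  have hP : IsProbabilityMeasure (PP d ν) := by
    unfold PP
    infer_instance
  have h0 : (0 : ℝ≥0∞) = ∫⁻ _V : Site d → ℝ, 0 ∂(PP d ν) := by simp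
  rw [h0]
  have hm : ∀ e φ : L2 (Site d), ∀ N M : ℕ, Measurable fun V : Site d → ℝ =>
      ‖av (ev V) e N φ - av (ev V) e M φ‖ₑ ^ 2 := fun e φ N M =>
    (((av_cont hev e φ N).sub (av_cont hev e φ M)).enorm.measurable).pow_const 2
  refine tendsto_lintegral_filter_of_dominated_convergence (fun _ => 4) ?_ ?_ ?_ ?_
  · refine Eventually.of_forall fun p => ?_
    have h2 : (fun V => ‖HN (ev V) (dl 0) p.1 - HN (ev V) (dl 0) p.2‖ₑ ^ 2) =
        fun V => ∑' y : Site d, ‖av (ev V) (dl 0) p.1 (dl y) - av (ev V) (dl 0) p.2 (dl y)‖ₑ ^ 2 := by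
      funext V
      rw [← enorm_sq_hs]
      refine tsum_congr fun y => ?_
      rw [lp.coeFn_sub, Pi.sub_apply, HN_apply, HN_apply]
    rw [h2]
    exact Measurable.tsum fun y => hm _ _ _ _
  · refine Eventually.of_forall fun p => Eventually.of_forall fun V => ?_
    have h1 : ‖HN (ev V) (dl 0) p.1 - HN (ev V) (dl 0) p.2‖ ≤ 2 := by
      refine (norm_sub_le _ _).trans ?_
      have a := HN_norm (ev V) (norm_dl (0 : Site d)).le p.1
      have b := HN_norm (ev V) (norm_dl (0 : Site d)).le p.2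
      linarith
    rw [← ofReal_norm, ← ENNReal.ofReal_pow (norm_nonneg _)]
    have h4 : (4 : ℝ≥0∞) = ENNReal.ofReal 4 := by simp
    rw [h4]
    refine ENNReal.ofReal_le_ofReal ?_
    nlinarith [norm_nonneg (HN (ev V) (dl 0) p.1 - HN (ev V) (dl 0) p.2)]
  · simp
  · refine Eventually.of_forall fun V => ?_
    obtain ⟨Y, hY⟩ := HN_tendsto (ev V) (dl 0)
    have h1 : Tendsto (fun p : ℕ × ℕ => HN (ev V) (dl 0) p.1 - HN (ev V) (dl 0) p.2)
        (atTop ×ˢ atTop) (𝓝 (Y - Y)) :=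
      (hY.comp tendsto_fst).sub (hY.comp tendsto_snd)
    rw [sub_self] at h1
    have h2 := ENNReal.Tendsto.pow (n := 2) ((continuous_enorm.tendsto _).comp h1)
    simpa using h2

end Pool.Agent.K7.H96.NBT
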